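import Pool.Agent.N500.LS.Comp3
import Pool.Agent.N500.LS.W

/-!
Averages of forms with a power singularity over small balls, and the lower bound of the averages
(helper500).
-/

set_option autoImplicit false

open Set Filter Topology MeasureTheory
open scoped Manifold ContDiff

noncomputable section

namespace Pool.Agent.N500.LS

open Pool.Agent.Y501.SY
open Pool.Agent.Q186.SG
open Pool.Agent.Y515.SY (Al LL II JJ bs bs_norm expand2 right_sum left_sum two_bound comp_norm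
  comp_cont comp_pair pair_eta LL_norm ev_sm aff_meas contDiffAt_of_eval moll_cs ind_sm ind_ev
  ind_smooth JJ_sm ext_smul ext_zero wedge3_norm comp3_norm JJ_off moll_int aff_null lR_apply
  JJ_eq moll_exists vol_zero)

variable {d : ℕ}

/-- averages of a negative power of the norm over unit balls -/
theorem nb0 (hd : 1 ≤ d) {ρ : E d → ℝ} (hρ : Moll 1 ρ) {b : ℝ} (hb0 : 0 < b) (hbd : b < d) :
    ∃ C' : ℝ, 0 ≤ C' ∧ ∀ (h : E d → ℝ) (c : ℝ) (z : E d), 0 ≤ c → (∀ y, 0 ≤ h y) →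
      (∀ y, h y ≤ c * ‖z + y‖ ^ (-b)) →
      ∫ y, ρ y * h y ≤ c * (C' * (‖z‖ ^ 2 + 1) ^ (-b / 2)) := by
  obtain ⟨M, hM0, hM⟩ := bdd_cs hρ.smooth.continuous (moll_cs hρ)
  have hki := pow_int hd (0 : E d) hbd 3
  rw [← integrable_indicator_iff measurableSet_ball] at hki
  simp only [sub_zero] at hki
  obtain ⟨κ, hκ⟩ : ∃ κ : E d → ℝ, κ = (Metric.ball (0 : E d) 3).indicator
    (fun x : E d => ‖x‖ ^ (-b)) := ⟨_, rfl⟩
  rw [← hκ] at hki
  have hκ0 : ∀ x, 0 ≤ κ x := by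
    intro x
    rw [hκ]
    exact indicator_nonneg (fun x _ => by positivity) x
  obtain ⟨I, hI⟩ : ∃ I : ℝ, I = ∫ x, κ x := ⟨_, rfl⟩
  have hI0 : 0 ≤ I := by rw [hI]; exact integral_nonneg hκ0
  have h5 : (0 : ℝ) < 5 ^ (b / 2) := by positivity
  have h55 : (5 : ℝ) ^ (b / 2) * 5 ^ (-b / 2) = 1 := by
    rw [← Real.rpow_add (by norm_num)]
    have : b / 2 + -b / 2 = 0 := by ring
    rw [this, Real.rpow_zero]
  refine ⟨5 ^ (b / 2) * (1 + M * I), by positivity, ?_⟩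
  intro h c z hc h0 hh
  have hz1 : 0 < ‖z‖ ^ 2 + 1 := by positivity
  have hW : 0 < (‖z‖ ^ 2 + 1) ^ (-b / 2) := by positivity
  have hnn : 0 ≤ᵐ[volume] fun y => ρ y * h y :=
    Eventually.of_forall fun y => mul_nonneg (hρ.nonneg y) (h0 y)
  rcases le_or_gt 2 ‖z‖ with hz | hz
  · -- far
    have hb1 : ∀ y, ρ y * h y ≤ ρ y * (c * (5 ^ (b / 2) * (‖z‖ ^ 2 + 1) ^ (-b / 2))) := by
      intro y
      by_cases hy : 1 ≤ ‖y‖
      · rw [hρ.supp y hy, zero_mul, zero_mul]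
      · rw [not_le] at hy
        refine mul_le_mul_of_nonneg_left ?_ (hρ.nonneg y)
        refine (hh y).trans (mul_le_mul_of_nonneg_left ?_ hc)
        have h1 : ‖z‖ / 2 ≤ ‖z + y‖ := by
          have h2 : ‖z‖ ≤ ‖z + y‖ + ‖y‖ := by
            have : z = (z + y) - y := by abel
            calc ‖z‖ = ‖(z + y) - y‖ := by rw [← this]
              _ ≤ _ := norm_sub_le _ _
          linarith
        have h3 : 0 < ‖z + y‖ := by linarith
        have h4 : ‖z‖ ^ 2 + 1 ≤ 5 * ‖z + y‖ ^ 2 := by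
          have h6 : (‖z‖ / 2) ^ 2 ≤ ‖z + y‖ ^ 2 := pow_le_pow_left₀ (by positivity) h1 2
          have h7 : 2 ^ 2 ≤ ‖z‖ ^ 2 := pow_le_pow_left₀ (by norm_num) hz 2
          nlinarith
        have h6 : (5 * ‖z + y‖ ^ 2) ^ (-b / 2) ≤ (‖z‖ ^ 2 + 1) ^ (-b / 2) :=
          Real.rpow_le_rpow_of_nonpos hz1 h4 (by linarith)
        have h7 : (5 * ‖z + y‖ ^ 2) ^ (-b / 2) = 5 ^ (-b / 2) * ‖z + y‖ ^ (-b) := by
          rw [Real.mul_rpow (by norm_num) (by positivity), ← Real.rpow_natCast ‖z + y‖ 2,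
            ← Real.rpow_mul h3.le]
          congr 2
          push_cast
          ring
        rw [h7] at h6
        calc ‖z + y‖ ^ (-b) = 5 ^ (b / 2) * (5 ^ (-b / 2) * ‖z + y‖ ^ (-b)) := by
              rw [← mul_assoc, h55, one_mul]
          _ ≤ _ := mul_le_mul_of_nonneg_left h6 h5.le
    have h8 := integral_mono_of_nonneg hnn ((moll_int hρ).mul_const _) (Eventually.of_forall hb1)
    rw [integral_mul_const, hρ.int, one_mul] at h8
    refine h8.trans (mul_le_mul_of_nonneg_left ?_ hc)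
    refine mul_le_mul_of_nonneg_right ?_ hW.le
    have : 0 ≤ 5 ^ (b / 2) * (M * I) := by positivity
    linarith
  · -- close
    have hb1 : ∀ y, ρ y * h y ≤ c * M * κ (z + y) := by
      intro y
      by_cases hy : 1 ≤ ‖y‖
      · rw [hρ.supp y hy, zero_mul]
        have := hκ0 (z + y)
        positivity
      · rw [not_le] at hy
        have h1 : z + y ∈ Metric.ball (0 : E d) 3 := by
          rw [mem_ball_zero_iff]
          refine lt_of_le_of_lt (norm_add_le _ _) ?_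
          linarith
        rw [hκ, indicator_of_mem h1]
        have h2 := hM y
        rw [Real.norm_of_nonneg (hρ.nonneg y)] at h2
        calc ρ y * h y ≤ M * (c * ‖z + y‖ ^ (-b)) :=
              mul_le_mul h2 (hh y) (h0 y) hM0
          _ = _ := by ring
    have h8 := integral_mono_of_nonneg hnn ((hki.comp_add_left z).const_mul (c * M))
      (Eventually.of_forall hb1)
    rw [integral_const_mul, integral_add_left_eq_self κ z, ← hI] at h8
    refine h8.trans ?_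
    rw [mul_assoc]
    refine mul_le_mul_of_nonneg_left ?_ hc
    have h9 : (5 : ℝ) ^ (-b / 2) ≤ (‖z‖ ^ 2 + 1) ^ (-b / 2) := by
      apply Real.rpow_le_rpow_of_nonpos hz1 _ (by linarith)
      have h10 : ‖z‖ ^ 2 ≤ 2 ^ 2 := pow_le_pow_left₀ (norm_nonneg _) hz.le 2
      linarith
    have h11 : 0 ≤ 1 + M * I := by positivity
    calc M * I ≤ 1 + M * I := by linarith
      _ = (1 + M * I) * (5 ^ (b / 2) * 5 ^ (-b / 2)) := by rw [h55, mul_one]
      _ = 5 ^ (b / 2) * (1 + M * I) * 5 ^ (-b / 2) := by ring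
      _ ≤ _ := mul_le_mul_of_nonneg_left h9 (by positivity)

/-- scaling -/
theorem scale_wt {b ε : ℝ} (hε : 0 < ε) (y : E d) :
    ε ^ (-b) * (‖ε⁻¹ • y‖ ^ 2 + 1) ^ (-b / 2) = (‖y‖ ^ 2 + ε ^ 2) ^ (-b / 2) := by
  have h1 : ε ^ (-b) = (ε ^ 2) ^ (-b / 2) := by
    rw [← Real.rpow_natCast, ← Real.rpow_mul hε.le]
    congr 1
    push_cast
    ring
  rw [h1, ← Real.mul_rpow (by positivity) (by positivity)]
  congr 1
  rw [norm_smul, norm_inv, Real.norm_of_nonneg hε.le]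
  field_simp

/-- averages over balls of radius `ε` -/
theorem nb1 (hd : 1 ≤ d) {ρ : E d → ℝ} (hρ : Moll 1 ρ) {b : ℝ} (hb0 : 0 < b) (hbd : b < d) :
    ∃ C' : ℝ, 0 ≤ C' ∧ ∀ (Φ : E d → Al d 2) (C ε : ℝ) (p₀ p : E d), 0 ≤ C → 0 < ε →
      (∀ q, ‖Φ q‖ ≤ C * ‖q - p₀‖ ^ (-b)) →
      ∫ y, ρ y * ‖Φ (p + ε • y)‖ ≤ C * C' * (‖p - p₀‖ ^ 2 + ε ^ 2) ^ (-b / 2) := by
  obtain ⟨C', hC', h⟩ := nb0 hd hρ hb0 hbd
  refine ⟨C', hC', ?_⟩
  intro Φ C ε p₀ p hC hε hΦ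
  have h1 := h (fun y => ‖Φ (p + ε • y)‖) (C * ε ^ (-b)) (ε⁻¹ • (p - p₀)) (by positivity)
    (fun y => norm_nonneg _) (fun y => by
      refine (hΦ _).trans (le_of_eq ?_)
      have h2 : p + ε • y - p₀ = ε • (ε⁻¹ • (p - p₀) + y) := by
        rw [smul_add, smul_smul, mul_inv_cancel₀ hε.ne', one_smul]
        abel
      rw [h2, norm_smul, Real.norm_of_nonneg hε.le, Real.mul_rpow hε.le (norm_nonneg _)]
      ring)
  refine h1.trans (le_of_eq ?_)
  rw [← scale_wt hε]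
  ring

/-- the lower bound -/
theorem JJ_lb2 {ρ χ : E d → ℝ} {ε : ℝ} (hρ : Moll ε ρ) {V k Q : Set (E d)} {s : E d → Al d 2}
    {Js : E d → (E d →L[ℝ] E d)} (hVk : IsOpen (V \ k)) (hs : ContDiffOn ℝ ∞ s (V \ k))
    (hi : Integrable ((V \ k).indicator s)) {c δ₁ D S : ℝ} (hQV : Q ⊆ V)
    (hkQ : volume (k ∩ Q) = 0)
    (hpos : ∀ p ∈ V \ k, ∀ v : E d, c * ‖v‖ ^ 2 ≤ s p ![v, Js p v]) {p : E d}
    (hp : χ p ≠ 0) (hball : ∀ y, ‖y‖ ≤ ε → p + χ p • y ∈ Q)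
    (hJ : ∀ y, ‖y‖ ≤ ε → ‖Js p - Js (p + χ p • y)‖ ≤ δ₁) (hS : ‖Js p‖ ≤ S)
    (hD : ‖fderiv ℝ χ p‖ ≤ D) (v : E d) :
    (c - (δ₁ + 2 * D * ε * S) * ∫ y, ρ y * ‖(V \ k).indicator s (p + χ p • y)‖) * ‖v‖ ^ 2 ≤
      JJ ρ χ ((V \ k).indicator s) p ![v, Js p v] := by
  have hD0 : 0 ≤ D := (norm_nonneg _).trans hD
  have hS0 : 0 ≤ S := (norm_nonneg _).trans hS
  have hf := ind_sm hVk hs
  have hρc := moll_cs hρ
  rw [JJ_apply hρ.smooth.continuous hρc hf hi hp]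
  have hNi : Integrable (fun y => ρ y * ‖(V \ k).indicator s (p + χ p • y)‖) :=
    II_int (χ := χ) (f := fun x => ‖(V \ k).indicator s x‖) hρ.smooth.continuous hρc hf.norm
      hi.norm hp
  have h1 : ∫ y, (ρ y * (c * ‖v‖ ^ 2) -
      (δ₁ + 2 * D * ε * S) * ‖v‖ ^ 2 * (ρ y * ‖(V \ k).indicator s (p + χ p • y)‖)) =
      (c - (δ₁ + 2 * D * ε * S) * ∫ y, ρ y * ‖(V \ k).indicator s (p + χ p • y)‖) *
        ‖v‖ ^ 2 := by
    rw [integral_sub ((moll_int hρ).mul_const _) (hNi.const_mul _), integral_mul_const, hρ.int,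
      one_mul, integral_const_mul]
    ring
  rw [← h1]
  refine integral_mono_ae (((moll_int hρ).mul_const _).sub (hNi.const_mul _))
    (JJ_apply_int hρ.smooth.continuous hρc hf hi hp v (Js p v)) ?_
  filter_upwards [aff_null hkQ p hp] with y hy
  by_cases hyε : ε ≤ ‖y‖
  · rw [hρ.supp y hyε]
    simp
  rw [not_le] at hyε
  set q : E d := p + χ p • y with hq
  have hqQ : q ∈ Q := hball y hyε.le
  have hqVk : q ∈ V \ k := ⟨hQV hqQ, fun h => hy ⟨h, hqQ⟩⟩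
  rw [indicator_of_mem hqVk, expand2]
  have hgoal : ρ y * (c * ‖v‖ ^ 2) - (δ₁ + 2 * D * ε * S) * ‖v‖ ^ 2 * (ρ y * ‖s q‖) =
      ρ y * ((c - (δ₁ + 2 * D * ε * S) * ‖s q‖) * ‖v‖ ^ 2) := by ring
  rw [hgoal]
  refine mul_le_mul_of_nonneg_left ?_ (hρ.nonneg y)
  set u : E d := Js p v with hu
  have hwn : ‖u‖ ≤ S * ‖v‖ :=
    ((Js p).le_opNorm v).trans (mul_le_mul_of_nonneg_right hS (norm_nonneg _))
  obtain ⟨b, hb⟩ : ∃ b : ℝ, b = ‖s q‖ := ⟨_, rfl⟩
  have hb0 : 0 ≤ b := by rw [hb]; positivity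
  have hsq : ‖s q‖ ≤ b := hb.ge
  rw [← hb]
  have hv0 : 0 ≤ ‖v‖ := norm_nonneg v
  -- the first term
  have t1 : s q ![v, u] = s q ![v, Js q v] + s q ![v, u - Js q v] := by
    rw [← lR_apply, ← lR_apply, ← lR_apply, ← map_add]
    congr 1
    abel
  have t2 := hpos q hqVk v
  have t3 : |s q ![v, u - Js q v]| ≤ b * δ₁ * ‖v‖ ^ 2 := by
    have h2 : ‖u - Js q v‖ ≤ δ₁ * ‖v‖ := by
      have h3 := (Js p - Js q).le_opNorm v
      rw [_root_.sub_apply] at h3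
      exact h3.trans (mul_le_mul_of_nonneg_right (hJ y hyε.le) hv0)
    refine (two_bound _ _ _).trans ?_
    calc ‖s q‖ * (‖v‖ * ‖u - Js q v‖) ≤ b * (‖v‖ * (δ₁ * ‖v‖)) :=
          mul_le_mul hsq (mul_le_mul_of_nonneg_left h2 hv0) (by positivity) hb0
      _ = _ := by ring
  -- the error terms
  have hdv : |fderiv ℝ χ p v| ≤ D * ‖v‖ := by
    have h3 := (fderiv ℝ χ p).le_opNorm v
    rw [Real.norm_eq_abs] at h3
    exact h3.trans (mul_le_mul_of_nonneg_right hD hv0)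
  have hdw : |fderiv ℝ χ p u| ≤ D * (S * ‖v‖) := by
    have h3 := (fderiv ℝ χ p).le_opNorm u
    rw [Real.norm_eq_abs] at h3
    exact h3.trans (mul_le_mul hD hwn (norm_nonneg _) hD0)
  have t4 : |fderiv ℝ χ p u * s q ![v, y]| ≤ b * D * ε * S * ‖v‖ ^ 2 := by
    rw [abs_mul]
    have h4 : |s q ![v, y]| ≤ b * (‖v‖ * ε) :=
      (two_bound _ _ _).trans (mul_le_mul hsq (mul_le_mul_of_nonneg_left hyε.le hv0)
        (by positivity) hb0)
    calc _ ≤ D * (S * ‖v‖) * (b * (‖v‖ * ε)) :=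
          mul_le_mul hdw h4 (abs_nonneg _) (by positivity)
      _ = _ := by ring
  have t5 : |fderiv ℝ χ p v * s q ![y, u]| ≤ b * D * ε * S * ‖v‖ ^ 2 := by
    rw [abs_mul]
    have hε0 : 0 ≤ ε := (norm_nonneg y).trans hyε.le
    have h4 : |s q ![y, u]| ≤ b * (ε * (S * ‖v‖)) :=
      (two_bound _ _ _).trans (mul_le_mul hsq (mul_le_mul hyε.le hwn (norm_nonneg _) hε0)
        (by positivity) hb0)
    calc _ ≤ D * ‖v‖ * (b * (ε * (S * ‖v‖))) :=
          mul_le_mul hdv h4 (abs_nonneg _) (by positivity)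
      _ = _ := by ring
  have a3 := (abs_le.1 t3).1
  have a4 := (abs_le.1 t4).1
  have a5 := (abs_le.1 t5).1
  have e1 : (c - (δ₁ + 2 * D * ε * S) * b) * ‖v‖ ^ 2 =
      c * ‖v‖ ^ 2 - b * δ₁ * ‖v‖ ^ 2 - 2 * (b * D * ε * S * ‖v‖ ^ 2) := by ring
  rw [e1, t1]
  linarith

end Pool.Agent.N500.LS
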