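import Pool.Agent.Q186.SG.Mod

/-!
A small closed form concentrated near a point which compensates the averaging error of a form with
a singularity stronger than the inverse square (helper500).
-/

set_option autoImplicit false

open Set Filter Topology MeasureTheory
open scoped Manifold ContDiff RealInnerProductSpace

noncomputable section

namespace Pool.Agent.N500.LS

open Pool.Agent.Y501.SY
open Pool.Agent.Q186.SG
open Pool.Agent.Y515.SY (Al ext_zero expand2)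
open Pool.Agent.Y484.SY (smooth_one two_le)

variable {d : ℕ}

section gen

variable {J₀ : E d →L[ℝ] E d} {f : E d → ℝ} {p₀ p : E d} {U : Set (E d)}

/-- lower bound for a radial potential -/
theorem ext_low (hJJ : ∀ v, J₀ (J₀ v) = -v) (hU : IsOpen U) (hf : ContDiffOn ℝ ∞ f U)
    (hp : p ∈ U) {F F' w : ℝ} (hF : f p = F)
    (hF' : ∀ u, fderiv ℝ f p u = 2 * F' * G J₀ (p - p₀) u) (hneg : F' ≤ 0)
    (hw : qf J₀ p₀ p ≤ w) (u : E d) :
    (F + w * F') * G J₀ u u ≤ extDeriv (bet J₀ f p₀) p ![u, J₀ u] := by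
  rw [ext_bet hU hf hp, hF' u, hF' (J₀ u), hF]
  set y : E d := p - p₀ with hy
  have a1 : Lam J₀ u (J₀ u) = (1 / 2) * G J₀ u u := by
    rw [Lam_apply, G, hJJ, inner_neg_right]
    ring
  have a2 : Lam J₀ y (J₀ u) = (1 / 2) * G J₀ y u := by
    rw [Lam_apply, G, hJJ, inner_neg_right]
    ring
  have a3 : Lam J₀ y u = -(1 / 2) * G J₀ y (J₀ u) := by
    rw [Lam_apply, G, hJJ, inner_neg_right]
    ring
  rw [a1, a2, a3]
  have h1 := G_bessel hJJ y u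
  have hq : G J₀ y y ≤ w := hw
  have hG : 0 ≤ G J₀ u u := le_trans (sq_nonneg _) (G_ge J₀ u)
  have h2 : G J₀ y u ^ 2 + G J₀ y (J₀ u) ^ 2 ≤ w * G J₀ u u :=
    h1.trans (mul_le_mul_of_nonneg_right hq hG)
  have h3 : F' * (w * G J₀ u u) ≤ F' * (G J₀ y u ^ 2 + G J₀ y (J₀ u) ^ 2) :=
    mul_le_mul_of_nonpos_left h2 hneg
  nlinarith

/-- upper bound for the norm -/
theorem ext_up (hU : IsOpen U) (hf : ContDiffOn ℝ ∞ f U) (hp : p ∈ U) {H T : ℝ} (hH : |f p| ≤ H)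
    (hT : ∀ u, |fderiv ℝ f p u| ≤ T * ‖u‖) (hT0 : 0 ≤ T) :
    ‖extDeriv (bet J₀ f p₀) p‖ ≤ 2 * H * ‖Lam J₀‖ + 2 * T * ‖Lam J₀‖ * ‖p - p₀‖ := by
  have hH0 : 0 ≤ H := (abs_nonneg _).trans hH
  have hL : ∀ x w : E d, |Lam J₀ x w| ≤ ‖Lam J₀‖ * ‖x‖ * ‖w‖ := fun x w => by
    rw [← Real.norm_eq_abs]
    exact (Lam J₀).le_opNorm₂ x w
  refine norm_le2 _ (by positivity) fun u v => ?_
  rw [ext_bet hU hf hp]
  have t1 : |2 * f p * Lam J₀ u v| ≤ 2 * H * (‖Lam J₀‖ * ‖u‖ * ‖v‖) := by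
    rw [abs_mul, abs_mul, abs_of_nonneg (by norm_num : (0 : ℝ) ≤ 2)]
    exact mul_le_mul (mul_le_mul_of_nonneg_left hH (by norm_num)) (hL u v)
      (abs_nonneg _) (by positivity)
  have t2 : ∀ u v : E d, |fderiv ℝ f p u * Lam J₀ (p - p₀) v| ≤
      T * ‖Lam J₀‖ * ‖p - p₀‖ * ‖u‖ * ‖v‖ := by
    intro u v
    rw [abs_mul]
    calc |fderiv ℝ f p u| * |Lam J₀ (p - p₀) v| ≤ (T * ‖u‖) * (‖Lam J₀‖ * ‖p - p₀‖ * ‖v‖) :=
          mul_le_mul (hT u) (hL _ _) (abs_nonneg _) (by positivity)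
      _ = _ := by ring
  have t3 := t2 u v
  have t4 := t2 v u
  refine (abs_add_le _ _).trans ?_
  have t5 := abs_sub (fderiv ℝ f p u * Lam J₀ (p - p₀) v) (fderiv ℝ f p v * Lam J₀ (p - p₀) u)
  nlinarith

end gen

/-- the radial profile -/
def FF (D A B γ b : ℝ) (w : ℝ) : ℝ := D * w⁻¹ + D * A * w ^ (γ / 2 - 1) - B * w ^ (-b / 2)

/-- its derivative -/
def FF' (D A B γ b : ℝ) (w : ℝ) : ℝ :=
  -(D * (w⁻¹ * w⁻¹)) + D * A * ((γ / 2 - 1) * (w ^ (γ / 2 - 1) * w⁻¹)) -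
    B * ((-b / 2) * (w ^ (-b / 2) * w⁻¹))

theorem FF_deriv (D A B γ b : ℝ) {w : ℝ} (hw : 0 < w) :
    HasDerivAt (FF D A B γ b) (FF' D A B γ b w) w := by
  have h1 : HasDerivAt (fun x : ℝ => x⁻¹) (-(w ^ 2)⁻¹) w := hasDerivAt_inv hw.ne'
  have h2 : HasDerivAt (fun x : ℝ => x ^ (γ / 2 - 1)) ((γ / 2 - 1) * w ^ (γ / 2 - 1 - 1)) w :=
    Real.hasDerivAt_rpow_const (Or.inl hw.ne')
  have h3 : HasDerivAt (fun x : ℝ => x ^ (-b / 2)) ((-b / 2) * w ^ (-b / 2 - 1)) w :=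
    Real.hasDerivAt_rpow_const (Or.inl hw.ne')
  have h4 := ((h1.const_mul D).add (h2.const_mul (D * A))).sub (h3.const_mul B)
  refine h4.congr_deriv ?_
  unfold FF'
  rw [Real.rpow_sub_one hw.ne' (γ / 2 - 1), Real.rpow_sub_one hw.ne' (-b / 2)]
  rw [sq, mul_inv, div_eq_mul_inv, div_eq_mul_inv]
  ring

/-- the facts about the profile: `D = 2 B ε ^ (2 - b)`, `w ≥ ε ^ 2` -/
theorem FF_facts {D A B γ b ε w : ℝ} (hA : 0 ≤ A) (hB : 0 ≤ B) (hγ0 : 0 < γ)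
    (hγ1 : γ ≤ 1) (hb : 2 < b) (hb4 : b < 4) (hε : 0 < ε) (hw : ε ^ 2 ≤ w)
    (hD : D = 2 * B * ε ^ (2 - b)) :
    0 ≤ FF D A B γ b w ∧ FF' D A B γ b w ≤ 0 ∧
    FF D A B γ b w ≤ D * w⁻¹ * (1 + A * w ^ (γ / 2)) ∧
    -(w * FF' D A B γ b w) ≤ D * w⁻¹ * (1 + A * w ^ (γ / 2)) ∧
    D * A * (γ / 2) * w ^ (γ / 2 - 1) + B * (b / 2 - 1) * w ^ (-b / 2) ≤
      FF D A B γ b w + w * FF' D A B γ b w := by
  have hw0 : 0 < w := lt_of_lt_of_le (by positivity) hw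
  have hD0 : 0 ≤ D := by rw [hD]; positivity
  have hwi : 0 < w⁻¹ := inv_pos.2 hw0
  -- `w ^ (-b/2) * w ≤ ε ^ (2 - b)`
  have key : w ^ (-b / 2) ≤ ε ^ (2 - b) * w⁻¹ := by
    have h1 : w ^ (-b / 2) = w ^ ((2 - b) / 2) * w⁻¹ := by
      rw [← Real.rpow_neg_one w, ← Real.rpow_add hw0]
      congr 1
      ring
    have h2 : w ^ ((2 - b) / 2) ≤ (ε ^ 2) ^ ((2 - b) / 2) :=
      Real.rpow_le_rpow_of_nonpos (by positivity) hw (by linarith)
    have h3 : (ε ^ 2) ^ ((2 - b) / 2) = ε ^ (2 - b) := by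
      rw [← Real.rpow_natCast, ← Real.rpow_mul hε.le]
      congr 1
      push_cast
      ring
    rw [h1, ← h3]
    exact mul_le_mul_of_nonneg_right h2 hwi.le
  have key2 : B * w ^ (-b / 2) ≤ D / 2 * w⁻¹ := by
    rw [hD]
    calc B * w ^ (-b / 2) ≤ B * (ε ^ (2 - b) * w⁻¹) := mul_le_mul_of_nonneg_left key hB
      _ = _ := by ring
  have hB0 : 0 ≤ B * w ^ (-b / 2) := by positivity
  have hP : 0 < w ^ (γ / 2 - 1) := by positivity
  have hPw : w ^ (γ / 2 - 1) = w⁻¹ * w ^ (γ / 2) := by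
    rw [Real.rpow_sub_one hw0.ne', div_eq_mul_inv, mul_comm]
  have hDA : 0 ≤ D * A * w ^ (γ / 2 - 1) := by positivity
  have hDw : 0 ≤ D * w⁻¹ := by positivity
  have hww : w * w⁻¹ = 1 := mul_inv_cancel₀ hw0.ne'
  -- the product `w * FF'`
  have e1 : w * FF' D A B γ b w =
      -(D * w⁻¹) - D * A * w ^ (γ / 2 - 1) * (1 - γ / 2) + (b / 2) * (B * w ^ (-b / 2)) := by
    unfold FF'
    linear_combination (-(D * w⁻¹) + D * A * ((γ / 2 - 1) * w ^ (γ / 2 - 1)) +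
      B * (b / 2) * w ^ (-b / 2)) * hww
  have e2 : w * FF' D A B γ b w ≤ 0 := by
    rw [e1]
    have h1 : (b / 2) * (B * w ^ (-b / 2)) ≤ 2 * (D / 2 * w⁻¹) :=
      mul_le_mul (by linarith) key2 hB0 (by norm_num)
    have h2 : 0 ≤ D * A * w ^ (γ / 2 - 1) * (1 - γ / 2) := mul_nonneg hDA (by linarith)
    linarith
  refine ⟨?_, ?_, ?_, ?_, ?_⟩
  · unfold FF
    linarith
  · by_contra h
    rw [not_le] at h
    have := mul_pos hw0 h
    linarith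
  · unfold FF
    rw [hPw]
    nlinarith
  · rw [e1, hPw]
    have h1 : 0 ≤ (b / 2) * (B * w ^ (-b / 2)) := mul_nonneg (by linarith) hB0
    have h2 : 0 ≤ D * A * (w⁻¹ * w ^ (γ / 2)) := by rw [← hPw]; exact hDA
    nlinarith
  · rw [e1]
    unfold FF
    apply le_of_eq
    ring

end Pool.Agent.N500.LS
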