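import Pool.Agent.N500.LS.Comp

/-!
The compensating form (helper500).
-/

set_option autoImplicit false

open Set Filter Topology MeasureTheory
open scoped Manifold ContDiff RealInnerProductSpace

noncomputable section

namespace Pool.Agent.N500.LS

open Pool.Agent.Y501.SY
open Pool.Agent.Q186.SG
open Pool.Agent.Y515.SY (Al ext_zero expand2)
open Pool.Agent.Y484.SY (smooth_one two_le)

variable {d : ℕ}

/-- the potential -/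
def fpot (J₀ : E d →L[ℝ] E d) (p₀ : E d) (D A B γ b ε : ℝ) (p : E d) : ℝ :=
  FF D A B γ b (qf J₀ p₀ p + ε ^ 2)

theorem qf_nonneg (J₀ : E d →L[ℝ] E d) (p₀ p : E d) : 0 ≤ qf J₀ p₀ p :=
  le_trans (sq_nonneg _) (G_ge J₀ (p - p₀))

theorem qf_lo (J₀ : E d →L[ℝ] E d) (p₀ p : E d) : ‖p - p₀‖ ^ 2 ≤ qf J₀ p₀ p := G_ge J₀ (p - p₀)

theorem qf_hi (J₀ : E d →L[ℝ] E d) (p₀ p : E d) :
    qf J₀ p₀ p ≤ (1 + ‖J₀‖ ^ 2) * ‖p - p₀‖ ^ 2 := G_le J₀ (p - p₀)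

theorem fpot_smooth (J₀ : E d →L[ℝ] E d) (p₀ : E d) (D A B γ b : ℝ) {ε : ℝ} (hε : 0 < ε) :
    ContDiff ℝ ∞ (fpot J₀ p₀ D A B γ b ε) := by
  have hw : ContDiff ℝ ∞ (fun p => qf J₀ p₀ p + ε ^ 2) := (qf_smooth J₀ p₀).add contDiff_const
  have hw0 : ∀ p, qf J₀ p₀ p + ε ^ 2 ≠ 0 := fun p => by
    have := qf_nonneg J₀ p₀ p
    positivity
  unfold fpot FF
  exact ((contDiff_const.mul (hw.inv hw0)).add
    (contDiff_const.mul (hw.rpow_const_of_ne hw0))).sub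
    (contDiff_const.mul (hw.rpow_const_of_ne hw0))

theorem fpot_fderiv (J₀ : E d →L[ℝ] E d) (p₀ : E d) (D A B γ b : ℝ) {ε : ℝ} (hε : 0 < ε)
    (p u : E d) : fderiv ℝ (fpot J₀ p₀ D A B γ b ε) p u =
      2 * FF' D A B γ b (qf J₀ p₀ p + ε ^ 2) * G J₀ (p - p₀) u := by
  have hw0 : 0 < qf J₀ p₀ p + ε ^ 2 := by
    have := qf_nonneg J₀ p₀ p
    positivity
  have h1 : HasFDerivAt (qf J₀ p₀) (fderiv ℝ (qf J₀ p₀) p) p :=
    ((qf_smooth J₀ p₀).differentiable (by simp) p).hasFDerivAt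
  have h2 : HasFDerivAt (fun p => qf J₀ p₀ p + ε ^ 2) (fderiv ℝ (qf J₀ p₀) p) p :=
    h1.add_const _
  have h3 : HasFDerivAt (fpot J₀ p₀ D A B γ b ε)
      (FF' D A B γ b (qf J₀ p₀ p + ε ^ 2) • fderiv ℝ (qf J₀ p₀) p) p :=
    (FF_deriv D A B γ b hw0).comp_hasFDerivAt p h2
  rw [h3.fderiv]
  simp only [smul_apply, smul_eq_mul]
  rw [qf_fderiv]
  ring

/-- the bounds at one point: `w` is small -/
theorem pot_bd {J₀ : E d →L[ℝ] E d} {p₀ p : E d} {n₀ D A B γ b ε w μ r₂ : ℝ}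
    (hn₀ : n₀ = 1 + ‖J₀‖ ^ 2)
    (hA : 0 ≤ A) (hB : 0 ≤ B) (hγ0 : 0 < γ) (hγ1 : γ ≤ 1) (hb : 2 < b) (hb4 : b < 4)
    (hε : 0 < ε) (hD : D = 2 * B * ε ^ (2 - b)) (hμ : A * μ ^ (γ / 2) ≤ 1)
    (hr₂ : n₀ * r₂ ^ 2 ≤ μ / 2) (hεμ : ε ^ 2 ≤ μ / 2) (hpr : ‖p - p₀‖ ≤ r₂)
    (hw : w = qf J₀ p₀ p + ε ^ 2) :
    0 < w ∧ ‖p - p₀‖ ^ 2 ≤ w ∧ ε ^ 2 ≤ w ∧ 0 ≤ FF D A B γ b w ∧
    FF D A B γ b w ≤ 2 * D * w⁻¹ ∧ FF' D A B γ b w ≤ 0 ∧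
    -FF' D A B γ b w * w ≤ 2 * D * w⁻¹ := by
  have hn1 : 0 ≤ n₀ := by rw [hn₀]; positivity
  have hwε : ε ^ 2 ≤ w := by rw [hw]; linarith [qf_nonneg J₀ p₀ p]
  have hw0 : 0 < w := lt_of_lt_of_le (by positivity) hwε
  have hwp : ‖p - p₀‖ ^ 2 ≤ w := by
    have h1 := qf_lo J₀ p₀ p
    have h2 := sq_nonneg ε
    rw [hw]
    linarith
  have hwμ : w ≤ μ := by
    rw [hw]
    have h3 := qf_hi J₀ p₀ p
    rw [← hn₀] at h3
    have h4 : ‖p - p₀‖ ^ 2 ≤ r₂ ^ 2 := pow_le_pow_left₀ (norm_nonneg _) hpr 2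
    have h5 : n₀ * ‖p - p₀‖ ^ 2 ≤ n₀ * r₂ ^ 2 := mul_le_mul_of_nonneg_left h4 hn1
    linarith
  obtain ⟨F1, F2, F3, F4, -⟩ := FF_facts (γ := γ) (w := w) hA hB hγ0 hγ1 hb hb4 hε hwε hD
  have hAw : A * w ^ (γ / 2) ≤ 1 :=
    (mul_le_mul_of_nonneg_left (Real.rpow_le_rpow hw0.le hwμ (by positivity)) hA).trans hμ
  have hD0 : 0 ≤ D := by rw [hD]; positivity
  have hwi : 0 < w⁻¹ := inv_pos.2 hw0
  have hDw : 0 ≤ D * w⁻¹ := by positivity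
  have hH2 : D * w⁻¹ * (1 + A * w ^ (γ / 2)) ≤ 2 * D * w⁻¹ := by
    have h1 : D * w⁻¹ * (1 + A * w ^ (γ / 2)) ≤ D * w⁻¹ * 2 :=
      mul_le_mul_of_nonneg_left (by linarith) hDw
    linarith
  exact ⟨hw0, hwp, hwε, F1, F3.trans hH2, F2, by linarith⟩

/-- the annulus: the norm of the form -/
theorem annulus_bd {J₀ : E d →L[ℝ] E d} {p₀ p : E d} {n₀ D A B γ b ε w l M r' H : ℝ}
    (hn₀ : n₀ = 1 + ‖J₀‖ ^ 2) (hl : l = ‖Lam J₀‖) (hε : 0 < ε)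
    (θ : ContDiffBump p₀) (hM : ∀ p, ‖fderiv ℝ θ p‖ ≤ M)
    {g f : E d → ℝ} (hg : g = fpot J₀ p₀ D A B γ b ε) (hf : f = fun p => θ p * g p)
    (hgs : ContDiff ℝ ∞ g) (hfs : ContDiff ℝ ∞ f)
    (hw : w = qf J₀ p₀ p + ε ^ 2) (hwp : ‖p - p₀‖ ^ 2 ≤ w)
    (F1 : 0 ≤ FF D A B γ b w) (F2 : FF D A B γ b w ≤ H) (F3 : FF' D A B γ b w ≤ 0)
    (F4 : -FF' D A B γ b w * w ≤ H) (hp0 : 0 < ‖p - p₀‖) (hp : ‖p - p₀‖ ≤ 2 * r') :
    ‖extDeriv (bet J₀ f p₀) p‖ ≤ (2 * l + 4 * n₀ * l + 4 * M * l * r') * H := by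
  have hn1 : 0 ≤ n₀ := by rw [hn₀]; positivity
  have hl0 : 0 ≤ l := by rw [hl]; positivity
  have hM0 : 0 ≤ M := (norm_nonneg _).trans (hM p)
  have hH0 : 0 ≤ H := F1.trans F2
  have hgp : g p = FF D A B γ b w := by rw [hg, hw]; rfl
  have hgp1 : |g p| ≤ H := by
    rw [hgp, abs_of_nonneg F1]
    exact F2
  have hθ01 : |θ p| ≤ 1 := by
    rw [abs_of_nonneg θ.nonneg]
    exact θ.le_one
  have hfp : |f p| ≤ H := by
    rw [hf]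
    change |θ p * g p| ≤ H
    rw [abs_mul]
    calc |θ p| * |g p| ≤ 1 * H := mul_le_mul hθ01 hgp1 (abs_nonneg _) zero_le_one
      _ = H := one_mul H
  have hF'0 : 0 ≤ -FF' D A B γ b w := by linarith
  have h4 : -FF' D A B γ b w * ‖p - p₀‖ ^ 2 ≤ H :=
    (mul_le_mul_of_nonneg_left hwp hF'0).trans F4
  have hgd : ∀ u, |fderiv ℝ g p u| * ‖p - p₀‖ ≤ 2 * n₀ * H * ‖u‖ := by
    intro u
    rw [hg, fpot_fderiv J₀ p₀ D A B γ b hε p u, ← hw, abs_mul, abs_mul,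
      abs_of_nonneg (by norm_num : (0 : ℝ) ≤ 2), abs_of_nonpos F3]
    have h3 := G_abs J₀ (p - p₀) u
    rw [← hn₀] at h3
    calc 2 * -FF' D A B γ b w * |G J₀ (p - p₀) u| * ‖p - p₀‖
        ≤ 2 * -FF' D A B γ b w * (n₀ * ‖p - p₀‖ * ‖u‖) * ‖p - p₀‖ := by
          gcongr
      _ = 2 * n₀ * ‖u‖ * (-FF' D A B γ b w * ‖p - p₀‖ ^ 2) := by ring
      _ ≤ 2 * n₀ * ‖u‖ * H := mul_le_mul_of_nonneg_left h4 (by positivity)
      _ = _ := by ring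
  obtain ⟨T, hT⟩ : ∃ T : ℝ, T = M * H + 2 * n₀ * H / ‖p - p₀‖ := ⟨_, rfl⟩
  have hT0 : 0 ≤ T := by rw [hT]; positivity
  have hfd : ∀ u, |fderiv ℝ f p u| ≤ T * ‖u‖ := by
    intro u
    have h3 : HasFDerivAt (fun q => θ q * g q) (θ p • fderiv ℝ g p + g p • fderiv ℝ θ p) p :=
      ((θ.contDiff.differentiable (n := ∞) (by simp)) p).hasFDerivAt.mul
        ((hgs.differentiable (by simp)) p).hasFDerivAt
    rw [hf, h3.fderiv]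
    change |θ p * fderiv ℝ g p u + g p * fderiv ℝ θ p u| ≤ _
    refine (abs_add_le _ _).trans ?_
    rw [abs_mul, abs_mul]
    have h4 : |fderiv ℝ g p u| ≤ 2 * n₀ * H / ‖p - p₀‖ * ‖u‖ := by
      rw [div_mul_eq_mul_div, le_div_iff₀ hp0]
      exact hgd u
    have h5 : |fderiv ℝ θ p u| ≤ M * ‖u‖ := by
      have h6 := (fderiv ℝ θ p).le_opNorm u
      rw [Real.norm_eq_abs] at h6
      exact h6.trans (mul_le_mul_of_nonneg_right (hM p) (norm_nonneg _))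
    calc |θ p| * |fderiv ℝ g p u| + |g p| * |fderiv ℝ θ p u|
        ≤ 1 * (2 * n₀ * H / ‖p - p₀‖ * ‖u‖) + H * (M * ‖u‖) :=
          add_le_add (mul_le_mul hθ01 h4 (abs_nonneg _) zero_le_one)
            (mul_le_mul hgp1 h5 (abs_nonneg _) hH0)
      _ = T * ‖u‖ := by rw [hT]; ring
  have h3 := ext_up (J₀ := J₀) (p₀ := p₀) isOpen_univ hfs.contDiffOn (mem_univ p) hfp hfd hT0
  rw [← hl] at h3
  refine h3.trans ?_
  have h4 : T * ‖p - p₀‖ = M * H * ‖p - p₀‖ + 2 * n₀ * H := by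
    rw [hT, add_mul, div_mul_cancel₀ _ hp0.ne']
  have h5 : M * H * ‖p - p₀‖ ≤ M * H * (2 * r') :=
    mul_le_mul_of_nonneg_left hp (by positivity)
  calc 2 * H * l + 2 * T * l * ‖p - p₀‖ = 2 * H * l + 2 * l * (T * ‖p - p₀‖) := by ring
    _ = 2 * H * l + 2 * l * (M * H * ‖p - p₀‖ + 2 * n₀ * H) := by rw [h4]
    _ ≤ 2 * H * l + 2 * l * (M * H * (2 * r') + 2 * n₀ * H) := by gcongr
    _ = _ := by ring

/-- near the point: the value of the form -/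
theorem near_val {Js : E d → (E d →L[ℝ] E d)} {J₀ : E d →L[ℝ] E d} {p₀ p : E d}
    {n₀ D A B γ b ε w l Λ H C₆ : ℝ}
    (hJJ : ∀ v, J₀ (J₀ v) = -v)
    (hn₀ : n₀ = 1 + ‖J₀‖ ^ 2) (hl : l = ‖Lam J₀‖) (hC₆ : C₆ = 2 * l + 4 * n₀ * l)
    (hAd : A = 4 * C₆ * Λ / γ) (hΛ : 0 ≤ Λ) (hB : 0 ≤ B)
    (hγ0 : 0 < γ) (hb : 2 < b) (hε : 0 < ε) (hD0 : 0 ≤ D)
    {g f : E d → ℝ} (hg : g = fpot J₀ p₀ D A B γ b ε) (hev : f =ᶠ[𝓝 p] g)
    (hfs : ContDiff ℝ ∞ f)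
    (hw : w = qf J₀ p₀ p + ε ^ 2) (hw0 : 0 < w) (hwp : ‖p - p₀‖ ^ 2 ≤ w)
    (F1 : 0 ≤ FF D A B γ b w) (hH : H = 2 * D * w⁻¹) (F2 : FF D A B γ b w ≤ H)
    (F3 : FF' D A B γ b w ≤ 0)
    (F4 : -FF' D A B γ b w * w ≤ H)
    (F5 : D * A * (γ / 2) * w ^ (γ / 2 - 1) + B * (b / 2 - 1) * w ^ (-b / 2) ≤
      FF D A B γ b w + w * FF' D A B γ b w)
    (hJ : ‖Js p - J₀‖ ≤ Λ * ‖p - p₀‖ ^ γ) (v : E d) :
    B * (b / 2 - 1) * w ^ (-b / 2) * ‖v‖ ^ 2 ≤ extDeriv (bet J₀ f p₀) p ![v, Js p v] := by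
  have hn1 : 0 ≤ n₀ := by rw [hn₀]; positivity
  have hl0 : 0 ≤ l := by rw [hl]; positivity
  have hC₆0 : 0 ≤ C₆ := by rw [hC₆]; positivity
  have hA0 : 0 ≤ A := by rw [hAd]; positivity
  have hH0 : 0 ≤ H := F1.trans F2
  have hfp : f p = FF D A B γ b w := by rw [hev.eq_of_nhds, hg, hw]; rfl
  have hfd : ∀ u, fderiv ℝ f p u = 2 * FF' D A B γ b w * G J₀ (p - p₀) u := by
    intro u
    rw [hev.fderiv_eq, hg, fpot_fderiv J₀ p₀ D A B γ b hε p u, ← hw]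
  have hlow := ext_low hJJ isOpen_univ hfs.contDiffOn (mem_univ p) hfp hfd F3
    (w := w) (by rw [hw]; linarith [sq_nonneg ε]) v
  obtain ⟨T, hT⟩ : ∃ T : ℝ, T = 2 * (-FF' D A B γ b w) * (n₀ * ‖p - p₀‖) := ⟨_, rfl⟩
  have hF'0 : 0 ≤ -FF' D A B γ b w := by linarith
  have hT0 : 0 ≤ T := by
    rw [hT]
    positivity
  have hTd : ∀ u, |fderiv ℝ f p u| ≤ T * ‖u‖ := by
    intro u
    rw [hfd u, abs_mul, abs_mul, abs_of_nonneg (by norm_num : (0 : ℝ) ≤ 2), abs_of_nonpos F3]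
    have h3 := G_abs J₀ (p - p₀) u
    rw [← hn₀] at h3
    calc 2 * -FF' D A B γ b w * |G J₀ (p - p₀) u|
        ≤ 2 * -FF' D A B γ b w * (n₀ * ‖p - p₀‖ * ‖u‖) :=
          mul_le_mul_of_nonneg_left h3 (by positivity)
      _ = T * ‖u‖ := by rw [hT]; ring
  have hfp1 : |f p| ≤ H := by
    rw [hfp, abs_of_nonneg F1]
    exact F2
  have hnA : ‖extDeriv (bet J₀ f p₀) p‖ ≤ C₆ * H := by
    have h3 := ext_up (J₀ := J₀) (p₀ := p₀) isOpen_univ hfs.contDiffOn (mem_univ p) hfp1 hTd hT0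
    rw [← hl] at h3
    refine h3.trans ?_
    have h4 : T * ‖p - p₀‖ ≤ 2 * n₀ * H := by
      have h6 : -FF' D A B γ b w * ‖p - p₀‖ ^ 2 ≤ H :=
        (mul_le_mul_of_nonneg_left hwp hF'0).trans F4
      calc T * ‖p - p₀‖ = 2 * n₀ * (-FF' D A B γ b w * ‖p - p₀‖ ^ 2) := by rw [hT]; ring
        _ ≤ 2 * n₀ * H := mul_le_mul_of_nonneg_left h6 (by positivity)
    calc 2 * H * l + 2 * T * l * ‖p - p₀‖ = 2 * H * l + 2 * l * (T * ‖p - p₀‖) := by ring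
      _ ≤ 2 * H * l + 2 * l * (2 * n₀ * H) := by gcongr
      _ = C₆ * H := by rw [hC₆]; ring
  have hPw : w ^ (γ / 2 - 1) = w⁻¹ * w ^ (γ / 2) := by
    rw [Real.rpow_sub_one hw0.ne', div_eq_mul_inv, mul_comm]
  have hJerr : ‖Js p - J₀‖ ≤ Λ * w ^ (γ / 2) := by
    refine hJ.trans (mul_le_mul_of_nonneg_left ?_ hΛ)
    have h3 : ‖p - p₀‖ ^ γ = (‖p - p₀‖ ^ 2) ^ (γ / 2) := by
      rw [← Real.rpow_natCast, ← Real.rpow_mul (norm_nonneg _)]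
      congr 1
      push_cast
      ring
    rw [h3]
    exact Real.rpow_le_rpow (by positivity) hwp (by positivity)
  have herr : |extDeriv (bet J₀ f p₀) p ![v, Js p v - J₀ v]| ≤
      D * A * (γ / 2) * w ^ (γ / 2 - 1) * ‖v‖ ^ 2 := by
    refine (le_norm2 (extDeriv (bet J₀ f p₀) p) v _).trans ?_
    have h8 : ‖Js p v - J₀ v‖ ≤ Λ * w ^ (γ / 2) * ‖v‖ := by
      have : Js p v - J₀ v = (Js p - J₀) v := rfl
      rw [this]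
      exact ((Js p - J₀).le_opNorm v).trans
        (mul_le_mul_of_nonneg_right hJerr (norm_nonneg _))
    calc ‖extDeriv (bet J₀ f p₀) p‖ * ‖v‖ * ‖Js p v - J₀ v‖
        ≤ (C₆ * H) * ‖v‖ * (Λ * w ^ (γ / 2) * ‖v‖) :=
          mul_le_mul (mul_le_mul_of_nonneg_right hnA (norm_nonneg _)) h8
            (norm_nonneg _) (by positivity)
      _ = (C₆ * Λ * 2) * (D * w⁻¹ * w ^ (γ / 2) * ‖v‖ ^ 2) := by
          rw [hH]
          ring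
      _ = (A * (γ / 2)) * (D * w⁻¹ * w ^ (γ / 2) * ‖v‖ ^ 2) := by
          congr 1
          rw [hAd]
          field_simp
          ring
      _ = _ := by rw [hPw]; ring
  have h6 := Al_sub (extDeriv (bet J₀ f p₀) p) v (Js p v) (J₀ v)
  have h10 := (abs_le.1 herr).1
  have hG := G_ge J₀ v
  have hb21 : 0 < b / 2 - 1 := by linarith
  have hsum : 0 ≤ FF D A B γ b w + w * FF' D A B γ b w := by
    refine le_trans ?_ F5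
    positivity
  have h11 : (D * A * (γ / 2) * w ^ (γ / 2 - 1) + B * (b / 2 - 1) * w ^ (-b / 2)) * ‖v‖ ^ 2 ≤
      (FF D A B γ b w + w * FF' D A B γ b w) * G J₀ v v :=
    mul_le_mul F5 hG (sq_nonneg _) hsum
  rw [h6]
  rw [add_mul] at h11
  linarith

/-- comparison of the weights -/
theorem wt_cmp {J₀ : E d →L[ℝ] E d} {p₀ p : E d} {n₀ b ε w L C₁ B γ : ℝ}
    (hn₀ : n₀ = 1 + ‖J₀‖ ^ 2) (hb : 2 < b) (hL : 0 ≤ L)
    (hC₁ : C₁ = L * n₀ ^ (b / 2) / (b / 2 - 1)) (hB : B = C₁ * ε ^ γ) (hε : 0 < ε)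
    (hw : w = qf J₀ p₀ p + ε ^ 2) (hw0 : 0 < w) :
    L * ε ^ γ * (‖p - p₀‖ ^ 2 + ε ^ 2) ^ (-b / 2) ≤ B * (b / 2 - 1) * w ^ (-b / 2) := by
  have hn1 : 1 ≤ n₀ := by
    have := sq_nonneg ‖J₀‖
    rw [hn₀]
    linarith
  have hb21 : 0 < b / 2 - 1 := by linarith
  have hwn : w ≤ n₀ * (‖p - p₀‖ ^ 2 + ε ^ 2) := by
    have h3 := qf_hi J₀ p₀ p
    rw [← hn₀] at h3
    have h4 : ε ^ 2 ≤ n₀ * ε ^ 2 := le_mul_of_one_le_left (sq_nonneg _) hn1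
    rw [hw, mul_add]
    linarith
  have h13 : (n₀ * (‖p - p₀‖ ^ 2 + ε ^ 2)) ^ (-b / 2) ≤ w ^ (-b / 2) :=
    Real.rpow_le_rpow_of_nonpos hw0 hwn (by linarith)
  rw [Real.mul_rpow (by linarith) (by positivity)] at h13
  have h14 : B * (b / 2 - 1) = L * ε ^ γ * n₀ ^ (b / 2) := by
    have h1 : C₁ * (b / 2 - 1) = L * n₀ ^ (b / 2) := by
      rw [hC₁, div_mul_cancel₀ _ hb21.ne']
    rw [hB]
    calc C₁ * ε ^ γ * (b / 2 - 1) = (C₁ * (b / 2 - 1)) * ε ^ γ := by ring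
      _ = _ := by rw [h1]; ring
  rw [h14]
  have h15 : n₀ ^ (b / 2) * n₀ ^ (-b / 2) = 1 := by
    rw [← Real.rpow_add (by linarith)]
    have : b / 2 + -b / 2 = 0 := by ring
    rw [this, Real.rpow_zero]
  calc L * ε ^ γ * (‖p - p₀‖ ^ 2 + ε ^ 2) ^ (-b / 2)
      = L * ε ^ γ * (n₀ ^ (b / 2) * n₀ ^ (-b / 2)) *
          (‖p - p₀‖ ^ 2 + ε ^ 2) ^ (-b / 2) := by rw [h15, mul_one]
    _ = L * ε ^ γ * n₀ ^ (b / 2) * (n₀ ^ (-b / 2) * (‖p - p₀‖ ^ 2 + ε ^ 2) ^ (-b / 2)) := by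
        ring
    _ ≤ _ := mul_le_mul_of_nonneg_left h13 (by positivity)

/-- vanishing outside of the ball -/
theorem off_ball {J₀ : E d →L[ℝ] E d} {p₀ : E d} (θ : ContDiffBump p₀) {g f : E d → ℝ}
    (hf : f = fun p => θ p * g p) {R : ℝ} (hR : θ.rOut < R) (p : E d) (hp : R ≤ ‖p - p₀‖) :
    extDeriv (bet J₀ f p₀) p = 0 := by
  have h1 : (Metric.closedBall p₀ θ.rOut)ᶜ ∈ 𝓝 p := by
    refine Metric.isClosed_closedBall.isOpen_compl.mem_nhds fun h => ?_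
    rw [Metric.mem_closedBall, dist_eq_norm] at h
    linarith
  have h2 : bet J₀ f p₀ =ᶠ[𝓝 p] fun _ => 0 := by
    filter_upwards [h1] with q hq
    have h3 : θ q = 0 := by
      rw [← Function.notMem_support, θ.support_eq]
      exact fun h => hq (Metric.ball_subset_closedBall h)
    have h4 : f q = 0 := by
      rw [hf]
      change θ q * _ = 0
      rw [h3, zero_mul]
    change one (f q • Lam J₀ (q - p₀)) = 0
    rw [h4, zero_smul]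
    rfl
  rw [h2.extDeriv_eq]
  unfold extDeriv
  rw [fderiv_fun_const]
  exact map_zero (ContinuousAlternatingMap.alternatizeUncurryFinCLM ℝ (E d) ℝ)

end Pool.Agent.N500.LS
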