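import Pool.Agent.N500.LS.Comp2

/-!
The compensating form: assembly (helper500).
-/

set_option autoImplicit false

open Set Filter Topology MeasureTheory
open scoped Manifold ContDiff RealInnerProductSpace

noncomputable section

namespace Pool.Agent.N500.LS

open Pool.Agent.Y501.SY
open Pool.Agent.Q186.SG
open Pool.Agent.Y515.SY (Al ext_zero expand2)
open Pool.Agent.Y484.SY (smooth_one two_le)

variable {d : ℕ}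

/-- the form at one value of `ε` -/
theorem comp_at {p₀ : E d} {r r' b γ Λ C₁ C₆ A' n₀ l μ M S K ε δ : ℝ} {J₀ : E d →L[ℝ] E d}
    (hn₀ : n₀ = 1 + ‖J₀‖ ^ 2) (hl : l = ‖Lam J₀‖) (hC₆ : C₆ = 2 * l + 4 * n₀ * l)
    (hA' : A' = 4 * C₆ * Λ / γ) (hγ0 : 0 < γ) (hγ1 : γ ≤ 1)
    (hb : 2 < b) (hb2 : b < 2 + γ) (hΛ : 0 ≤ Λ) (hC₁0 : 0 ≤ C₁)
    (hμ : A' * μ ^ (γ / 2) ≤ 1) (hr'0 : 0 < r') (hr'r : r' ≤ r / 12)
    (hr'μ : n₀ * (3 * r') ^ 2 ≤ μ / 2) (hεμ : ε ^ 2 ≤ μ / 2) (hε : 0 < ε)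
    {Js : E d → (E d →L[ℝ] E d)} (hJJ : ∀ v, J₀ (J₀ v) = -v)
    (hH : ∀ p ∈ Metric.ball p₀ r, ‖Js p - J₀‖ ≤ Λ * ‖p - p₀‖ ^ γ)
    (θ : ContDiffBump p₀) (hθ1 : θ.rOut = 2 * r') (hθ2 : θ.rIn = r')
    (hM : ∀ p, ‖fderiv ℝ θ p‖ ≤ M) (hS : S = ‖J₀‖ + Λ * (3 * r') ^ γ)
    (hK : K = 2 * (C₆ + 6 * M * l * r') / r' ^ 2 * S)
    (hδ : 0 < δ) (hKδ : K * (2 * C₁ * ε ^ (2 + γ - b)) ≤ δ) :
    ∃ A : E d → Al d 2, ContDiff ℝ ∞ A ∧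
        (∀ p, extDeriv A p = 0) ∧ (∀ p, r / 4 ≤ ‖p - p₀‖ → A p = 0) ∧
        (∀ p, r' ≤ ‖p - p₀‖ → ∀ v : E d, -δ * ‖v‖ ^ 2 ≤ A p ![v, Js p v]) ∧
        ∀ p, ‖p - p₀‖ < r' → ∀ v : E d,
          C₁ * ε ^ γ * (b / 2 - 1) * (qf J₀ p₀ p + ε ^ 2) ^ (-b / 2) * ‖v‖ ^ 2 ≤
            A p ![v, Js p v] := by
  have hn1 : 0 ≤ n₀ := by rw [hn₀]; positivity
  have hl0 : 0 ≤ l := by rw [hl]; positivity
  have hC₆0 : 0 ≤ C₆ := by rw [hC₆]; positivity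
  have hA'0 : 0 ≤ A' := by rw [hA']; positivity
  have hM0 : 0 ≤ M := (norm_nonneg _).trans (hM p₀)
  have hS0 : 0 ≤ S := by rw [hS]; positivity
  have hb4 : b < 4 := by linarith
  obtain ⟨B, hB⟩ : ∃ B : ℝ, B = C₁ * ε ^ γ := ⟨_, rfl⟩
  have hB0 : 0 ≤ B := by rw [hB]; positivity
  obtain ⟨D, hD⟩ : ∃ D : ℝ, D = 2 * B * ε ^ (2 - b) := ⟨_, rfl⟩
  have hD0 : 0 ≤ D := by rw [hD]; positivity
  have hKD : K * D ≤ δ := by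
    refine le_of_eq_of_le ?_ hKδ
    have h1 : D = 2 * C₁ * ε ^ (2 + γ - b) := by
      rw [hD, hB]
      have : ε ^ (2 + γ - b) = ε ^ γ * ε ^ (2 - b) := by
        rw [← Real.rpow_add hε]
        congr 1
        ring
      rw [this]
      ring
    rw [h1]
  obtain ⟨g, hg⟩ : ∃ g : E d → ℝ, g = fpot J₀ p₀ D A' B γ b ε := ⟨_, rfl⟩
  have hgs : ContDiff ℝ ∞ g := by rw [hg]; exact fpot_smooth J₀ p₀ D A' B γ b hε
  obtain ⟨f, hf⟩ : ∃ f : E d → ℝ, f = fun p => θ p * g p := ⟨_, rfl⟩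
  have hfs : ContDiff ℝ ∞ f := by rw [hf]; exact θ.contDiff.mul hgs
  have hβ : ContDiff ℝ ∞ (bet J₀ f p₀) := by
    rw [← contDiffOn_univ]
    exact bet_smooth hfs.contDiffOn
  have hAs : ContDiff ℝ ∞ (extDeriv (bet J₀ f p₀)) := by
    rw [← contDiffOn_univ]
    exact (ContinuousAlternatingMap.alternatizeUncurryFinCLM ℝ (E d) ℝ).contDiff.comp_contDiffOn
      (hβ.contDiffOn.fderiv_of_isOpen isOpen_univ (m := ∞) (by simp))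
  have hA0 : ∀ p, 3 * r' ≤ ‖p - p₀‖ → extDeriv (bet J₀ f p₀) p = 0 := fun p hp =>
    off_ball θ hf (R := 3 * r') (by rw [hθ1]; linarith) p hp
  refine ⟨extDeriv (bet J₀ f p₀), hAs, fun p => ?_, fun p hp => hA0 p (by linarith), ?_, ?_⟩
  · exact extDeriv_extDeriv_apply (r := ∞) hβ.contDiffAt two_le
  · intro p hp v
    have hv2 : 0 ≤ ‖v‖ ^ 2 := sq_nonneg _
    rcases le_or_gt (3 * r') ‖p - p₀‖ with h2 | h2
    · rw [hA0 p h2]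
      have : (0 : Al d 2) ![v, Js p v] = 0 := rfl
      rw [this]
      have : 0 ≤ δ * ‖v‖ ^ 2 := by positivity
      linarith
    · have hpr : p ∈ Metric.ball p₀ r := by
        rw [Metric.mem_ball, dist_eq_norm]
        linarith
      obtain ⟨w, hw⟩ : ∃ w : ℝ, w = qf J₀ p₀ p + ε ^ 2 := ⟨_, rfl⟩
      obtain ⟨hw0, hwp, -, F1, F2, F3, F4⟩ := pot_bd hn₀ hA'0 hB0 hγ0 hγ1 hb hb4 hε hD hμ
        hr'μ hεμ h2.le hw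
      have hn := annulus_bd (r' := 3 / 2 * r') hn₀ hl hε θ hM hg hf hgs hfs hw hwp F1 F2 F3 F4
        (lt_of_lt_of_le hr'0 hp) (by linarith)
      have hwr : w⁻¹ ≤ (r' ^ 2)⁻¹ := by
        apply inv_anti₀ (by positivity)
        exact (pow_le_pow_left₀ hr'0.le hp 2).trans hwp
      have hnS : ‖extDeriv (bet J₀ f p₀) p‖ * S ≤ δ := by
        refine le_trans ?_ hKD
        calc ‖extDeriv (bet J₀ f p₀) p‖ * S
            ≤ ((2 * l + 4 * n₀ * l + 4 * M * l * (3 / 2 * r')) * (2 * D * w⁻¹)) * S :=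
              mul_le_mul_of_nonneg_right hn hS0
          _ ≤ ((2 * l + 4 * n₀ * l + 4 * M * l * (3 / 2 * r')) * (2 * D * (r' ^ 2)⁻¹)) * S := by
              gcongr
          _ = K * D := by rw [hK, hC₆]; ring
      have hJs : ‖Js p v‖ ≤ S * ‖v‖ := by
        refine ((Js p).le_opNorm v).trans (mul_le_mul_of_nonneg_right ?_ (norm_nonneg _))
        have h3 := hH p hpr
        have h4 : ‖Js p‖ ≤ ‖J₀‖ + ‖Js p - J₀‖ := by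
          have : Js p = J₀ + (Js p - J₀) := by abel
          calc ‖Js p‖ = ‖J₀ + (Js p - J₀)‖ := by rw [← this]
            _ ≤ _ := norm_add_le _ _
        have h5 : Λ * ‖p - p₀‖ ^ γ ≤ Λ * (3 * r') ^ γ :=
          mul_le_mul_of_nonneg_left (Real.rpow_le_rpow (norm_nonneg _) h2.le hγ0.le) hΛ
        rw [hS]
        linarith
      have h3 : |extDeriv (bet J₀ f p₀) p ![v, Js p v]| ≤ δ * ‖v‖ ^ 2 := by
        refine (le_norm2 (extDeriv (bet J₀ f p₀) p) v _).trans ?_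
        calc ‖extDeriv (bet J₀ f p₀) p‖ * ‖v‖ * ‖Js p v‖
            ≤ ‖extDeriv (bet J₀ f p₀) p‖ * ‖v‖ * (S * ‖v‖) :=
              mul_le_mul_of_nonneg_left hJs (by positivity)
          _ = (‖extDeriv (bet J₀ f p₀) p‖ * S) * ‖v‖ ^ 2 := by ring
          _ ≤ _ := mul_le_mul_of_nonneg_right hnS hv2
      have := (abs_le.1 h3).1
      linarith
  · intro p hp v
    have hpr : p ∈ Metric.ball p₀ r := by
      rw [Metric.mem_ball, dist_eq_norm]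
      linarith
    obtain ⟨w, hw⟩ : ∃ w : ℝ, w = qf J₀ p₀ p + ε ^ 2 := ⟨_, rfl⟩
    obtain ⟨hw0, hwp, hwε, F1, F2, F3, F4⟩ := pot_bd hn₀ hA'0 hB0 hγ0 hγ1 hb hb4 hε hD hμ
      hr'μ hεμ (by linarith : ‖p - p₀‖ ≤ 3 * r') hw
    obtain ⟨-, -, -, -, F5⟩ := FF_facts (γ := γ) (w := w) hA'0 hB0 hγ0 hγ1 hb hb4 hε hwε hD
    have hev : f =ᶠ[𝓝 p] g := by
      have h1 := θ.eventuallyEq_one_of_mem_ball (x := p) (by
        rw [hθ2, Metric.mem_ball, dist_eq_norm]; exact hp)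
      filter_upwards [h1] with q hq
      rw [hf]
      simp only [hq, Pi.one_apply, one_mul]
    have h := near_val hJJ hn₀ hl hC₆ hA' hΛ hB0 hγ0 hb hε hD0 hg hev hfs hw hw0 hwp F1 rfl F2
      F3 F4 F5 (hH p hpr) v
    rw [← hw, ← hB]
    exact h

/-- the compensating form -/
theorem comp_form {p₀ : E d} {r b γ Λ L : ℝ} (hr : 0 < r) (hγ0 : 0 < γ) (hγ1 : γ ≤ 1)
    (hb : 2 < b) (hb2 : b < 2 + γ) (hΛ : 0 ≤ Λ) (hL : 0 ≤ L)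
    {Js : E d → (E d →L[ℝ] E d)} (hJJ : ∀ v, Js p₀ (Js p₀ v) = -v)
    (hH : ∀ p ∈ Metric.ball p₀ r, ‖Js p - Js p₀‖ ≤ Λ * ‖p - p₀‖ ^ γ) :
    ∃ r' : ℝ, 0 < r' ∧ r' ≤ r / 12 ∧ ∀ δ : ℝ, 0 < δ → ∃ ε₀ : ℝ, 0 < ε₀ ∧
      ∀ ε : ℝ, 0 < ε → ε ≤ ε₀ → ∃ A : E d → Al d 2, ContDiff ℝ ∞ A ∧
        (∀ p, extDeriv A p = 0) ∧ (∀ p, r / 4 ≤ ‖p - p₀‖ → A p = 0) ∧
        (∀ p, r' ≤ ‖p - p₀‖ → ∀ v : E d, -δ * ‖v‖ ^ 2 ≤ A p ![v, Js p v]) ∧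
        ∀ p, ‖p - p₀‖ < r' → ∀ v : E d,
          L * ε ^ γ * (‖p - p₀‖ ^ 2 + ε ^ 2) ^ (-b / 2) * ‖v‖ ^ 2 ≤ A p ![v, Js p v] := by
  obtain ⟨J₀, hJ₀⟩ : ∃ J₀, J₀ = Js p₀ := ⟨_, rfl⟩
  rw [← hJ₀] at hJJ hH
  obtain ⟨n₀, hn₀⟩ : ∃ n₀ : ℝ, n₀ = 1 + ‖J₀‖ ^ 2 := ⟨_, rfl⟩
  have hn1 : 1 ≤ n₀ := by
    have := sq_nonneg ‖J₀‖
    rw [hn₀]
    linarith
  obtain ⟨l, hl⟩ : ∃ l : ℝ, l = ‖Lam J₀‖ := ⟨_, rfl⟩
  have hl0 : 0 ≤ l := by rw [hl]; positivity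
  obtain ⟨C₁, hC₁⟩ : ∃ C₁ : ℝ, C₁ = L * n₀ ^ (b / 2) / (b / 2 - 1) := ⟨_, rfl⟩
  have hb21 : 0 < b / 2 - 1 := by linarith
  have hC₁0 : 0 ≤ C₁ := by rw [hC₁]; positivity
  obtain ⟨C₆, hC₆⟩ : ∃ C₆ : ℝ, C₆ = 2 * l + 4 * n₀ * l := ⟨_, rfl⟩
  have hC₆0 : 0 ≤ C₆ := by rw [hC₆]; positivity
  obtain ⟨A', hA'⟩ : ∃ A' : ℝ, A' = 4 * C₆ * Λ / γ := ⟨_, rfl⟩
  have hA'0 : 0 ≤ A' := by rw [hA']; positivity
  obtain ⟨μ, hμ0, hμ⟩ : ∃ μ : ℝ, 0 < μ ∧ A' * μ ^ (γ / 2) ≤ 1 := by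
    have h1 : Tendsto (fun x : ℝ => A' * x ^ (γ / 2)) (𝓝 0) (𝓝 0) := by
      have h2 := (Real.continuousAt_rpow_const 0 (γ / 2) (Or.inr (by positivity))).tendsto
      rw [Real.zero_rpow (by positivity)] at h2
      have := h2.const_mul A'
      rwa [mul_zero] at this
    have h3 := (h1.mono_left (nhdsWithin_le_nhds (s := Ioi (0 : ℝ)))).eventually
      (gt_mem_nhds one_pos)
    obtain ⟨μ, h4, h5⟩ := (h3.and self_mem_nhdsWithin).exists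
    exact ⟨μ, h5, h4.le⟩
  obtain ⟨r', hr'0, hr'r, hr'μ⟩ : ∃ r' : ℝ, 0 < r' ∧ r' ≤ r / 12 ∧ n₀ * (3 * r') ^ 2 ≤ μ / 2 := by
    obtain ⟨r', h1, h2⟩ : ∃ r' : ℝ, 0 < r' ∧ r' ≤ min (r / 12) (min 1 (μ / (18 * n₀))) :=
      ⟨_, lt_min (by positivity) (lt_min one_pos (by positivity)), le_rfl⟩
    refine ⟨r', h1, h2.trans (min_le_left _ _), ?_⟩
    have h3 : r' ≤ 1 := h2.trans ((min_le_right _ _).trans (min_le_left _ _))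
    have h4 : r' ≤ μ / (18 * n₀) := h2.trans ((min_le_right _ _).trans (min_le_right _ _))
    rw [le_div_iff₀ (by positivity)] at h4
    have h5 : r' * r' ≤ r' := mul_le_of_le_one_left h1.le h3
    have h6 : n₀ * (r' * r') ≤ n₀ * r' := mul_le_mul_of_nonneg_left h5 (by linarith)
    have h7 : n₀ * (3 * r') ^ 2 = 9 * (n₀ * (r' * r')) := by ring
    rw [h7]
    linarith
  refine ⟨r', hr'0, hr'r, fun δ hδ => ?_⟩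
  obtain ⟨θ, hθ1, hθ2⟩ : ∃ θ : ContDiffBump p₀, θ.rOut = 2 * r' ∧ θ.rIn = r' :=
    ⟨⟨r', 2 * r', hr'0, by linarith⟩, rfl, rfl⟩
  obtain ⟨M, hM⟩ := (θ.contDiff.continuous_fderiv (n := ∞)
    (by simp)).bounded_above_of_compact_support (θ.hasCompactSupport.fderiv ℝ)
  have hM0 : 0 ≤ M := (norm_nonneg _).trans (hM p₀)
  obtain ⟨S, hS⟩ : ∃ S : ℝ, S = ‖J₀‖ + Λ * (3 * r') ^ γ := ⟨_, rfl⟩
  have hS0 : 0 ≤ S := by rw [hS]; positivity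
  obtain ⟨K, hK⟩ : ∃ K : ℝ, K = 2 * (C₆ + 6 * M * l * r') / r' ^ 2 * S := ⟨_, rfl⟩
  have hK0 : 0 ≤ K := by rw [hK]; positivity
  obtain ⟨ε₀, hε₀, hε₀μ, hε₀K⟩ : ∃ ε₀ : ℝ, 0 < ε₀ ∧ ε₀ ^ 2 ≤ μ / 2 ∧
      K * (2 * C₁ * ε₀ ^ (2 + γ - b)) ≤ δ := by
    have t1 : Tendsto (fun ε : ℝ => ε ^ 2) (𝓝 0) (𝓝 0) := by
      have := (continuous_pow (M := ℝ) 2).tendsto 0
      rwa [zero_pow two_ne_zero] at this
    have t2 : Tendsto (fun ε : ℝ => K * (2 * C₁ * ε ^ (2 + γ - b))) (𝓝 0) (𝓝 0) := by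
      have h2 := (Real.continuousAt_rpow_const 0 (2 + γ - b) (Or.inr (by linarith))).tendsto
      rw [Real.zero_rpow (by linarith)] at h2
      have := (h2.const_mul (2 * C₁)).const_mul K
      rwa [mul_zero, mul_zero] at this
    have h3 := (t1.mono_left (nhdsWithin_le_nhds (s := Ioi (0 : ℝ)))).eventually
      (gt_mem_nhds (half_pos hμ0))
    have h4 := (t2.mono_left (nhdsWithin_le_nhds (s := Ioi (0 : ℝ)))).eventually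
      (gt_mem_nhds hδ)
    obtain ⟨ε₀, ⟨h5, h6⟩, h7⟩ := ((h3.and h4).and self_mem_nhdsWithin).exists
    exact ⟨ε₀, h7, h5.le, h6.le⟩
  refine ⟨ε₀, hε₀, fun ε hε hεε₀ => ?_⟩
  have hKδ : K * (2 * C₁ * ε ^ (2 + γ - b)) ≤ δ := by
    refine le_trans (mul_le_mul_of_nonneg_left ?_ hK0) hε₀K
    exact mul_le_mul_of_nonneg_left (Real.rpow_le_rpow hε.le hεε₀ (by linarith)) (by positivity)
  have hεμ : ε ^ 2 ≤ μ / 2 := (pow_le_pow_left₀ hε.le hεε₀ 2).trans hε₀μ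
  obtain ⟨A, g1, g2, g3, g4, g5⟩ := comp_at hn₀ hl hC₆ hA' hγ0 hγ1 hb hb2 hΛ hC₁0 hμ hr'0 hr'r
    hr'μ hεμ hε hJJ hH θ hθ1 hθ2 hM hS hK hδ hKδ
  refine ⟨A, g1, g2, g3, g4, fun p hp v => ?_⟩
  refine le_trans ?_ (g5 p hp v)
  refine mul_le_mul_of_nonneg_right ?_ (sq_nonneg _)
  have hw0 : 0 < qf J₀ p₀ p + ε ^ 2 := by
    have := qf_nonneg J₀ p₀ p
    positivity
  exact wt_cmp (B := C₁ * ε ^ γ) hn₀ hb hL hC₁ rfl hε rfl hw0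

end Pool.Agent.N500.LS
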