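import Pool.Agent.N500.LS.Main2
import Pool.Agent.Q186.SG.Final
import Pool.Agent.Y501.SY.BridgeV

/-!
Removable singularities of taming forms beyond the inverse square: final form (helper500).
-/

set_option autoImplicit false

open Set Filter Topology MeasureTheory
open scoped Manifold ContDiff

noncomputable section

namespace Pool.Agent.N500.LSP

open Pool.Agent.Y501.SYP

section forms

variable {V : Type} [NormedAddCommGroup V] [NormedSpace ℝ V]
  {X : Type} [TopologicalSpace X] [ChartedSpace V X]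

/-- On the complement of `K` near `x`, in the chart at `x`, the norm of `σ` is at most a constant
times the distance to `x` to the power `-a`, for some `a < A`. -/
def SlowerThan (A : ℝ) (σ : Form V X 2) (K : Set X) (x : X) : Prop :=
  ∃ a C : ℝ, a < A ∧ ∀ᶠ p in 𝓝 (chartAt V x x), (chartAt V x).symm p ∉ K →
    ‖pb (chartAt V x).symm σ p‖ ≤ C * ‖p - chartAt V x x‖ ^ (-a)

/-- `J` is Hoelder continuous with exponent `γ` near `x` (in the chart at `x`). -/
def HolderNear (J : End V X) (γ : ℝ) (x : X) : Prop :=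
  ∃ Λ : ℝ, ∃ N ∈ 𝓝 (chartAt V x x), ∀ p ∈ N, ∀ q ∈ N, ∀ v : V,
    ‖inChart J x p v - inChart J x q v‖ ≤ Λ * ‖p - q‖ ^ γ * ‖v‖

/-- `σ` grows slower than the inverse square of the distance to `x`, or `J` is Hoelder continuous
near `x` with some exponent `γ` in `(0, 1]` and `σ` grows slower than the distance to the power
`-(2 + γ)`. -/
def TameGrowth (σ : Form V X 2) (J : End V X) (K : Set X) (x : X) : Prop :=
  SlowerThan 2 σ K x ∨
    ∃ γ : ℝ, 0 < γ ∧ γ ≤ 1 ∧ HolderNear J γ x ∧ SlowerThan (2 + γ) σ K x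

end forms

variable {d : ℕ} {X : Type} [TopologicalSpace X] [ChartedSpace (ES d) X]

attribute [local instance] cs mf

theorem hol_of {J : End (ES d) X} {γ : ℝ} {x : X} (h : HolderNear J γ x) :
    Pool.Agent.N500.LS.HolAt (d := d) (X := X) J γ x := by
  obtain ⟨Λ, N, hN, h⟩ := h
  refine ⟨|Λ|, abs_nonneg _, N, hN, fun p hp q hq => ?_⟩
  have h0 : 0 ≤ ‖p - q‖ ^ γ := Real.rpow_nonneg (norm_nonneg _) _
  refine ContinuousLinearMap.opNorm_le_bound _ (mul_nonneg (abs_nonneg _) h0) fun v => ?_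
  refine (h p hp q hq v).trans ?_
  refine mul_le_mul_of_nonneg_right ?_ (norm_nonneg _)
  exact mul_le_mul_of_nonneg_right (le_abs_self _) h0

theorem strongSing [IsManifold 𝓘(ℝ, ES d) ∞ X] [CompactSpace X] [T2Space X] (hd : 4 ≤ d)
    (J : End (ES d) X) (hJ : IsAlmostComplex J) (K : Set X) (hK : IsClosed K)
    (hH : ∀ x₀ : X, μH[(d : ℝ) - 1] (chartAt (ES d) x₀ '' (K ∩ (chartAt (ES d) x₀).source)) = 0)
    (σ : Form (ES d) X 2) (hσ : ClosedOff σ K) (hb : ∀ x ∈ K, TameGrowth σ J K x)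
    (hpos : ∀ x, x ∉ K → ∀ v : TangentSpace 𝓘(ℝ, ES d) x, 0 ≤ qd σ J x v)
    (hsmall : ∀ z ∈ Crit σ J K, SmallAll J (connectedComponentIn (Crit σ J K) z) z)
    (U : Set X) (hU : IsOpen U) (hKU : K ⊆ U) :
    ∃ (α : Form (ES d) X 1) (η w : Form (ES d) X 2), IsSmooth α ∧ IsSmooth η ∧ IsD α η ∧
      IsTamingSymplectic w J ∧ (∀ x, x ∉ U → w x = addF σ η x) ∧
      ∀ τ : Form (ES d) X 2, (∀ x, TamesAt τ J x) →
        ∀ t : ℝ, 0 ≤ t → t ≤ 1 → NondegForm (segment τ w t) := by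
  obtain ⟨α, η, w, h1, h2, h3, h4, h5, h6, h7⟩ := Pool.Agent.N500.LS.mainS2 (d := d) (X := X) hd
    (J := J) (ac_of J hJ) (K := K) hK hH (σ := σ)
    (fun V φ hV hφ hp => (hσ V φ ⟨hV, hφ⟩ hp).1)
    (fun V φ hV hφ hp p hpV => (hσ V φ ⟨hV, hφ⟩ hp).2 p hpV)
    (fun x hx => by
      rcases hb x hx with h | ⟨γ, g1, g2, g3, g4⟩
      · exact Or.inl h
      · exact Or.inr ⟨γ, g1, g2, hol_of g3, g4⟩)
    hpos (fun z hz => smallAll_of hJ (hsmall z hz)) hU hKU
  have hw : IsTamingSymplectic w J := symp_of ((smooth_iff w).2 h4) ((closed_iff w).2 h5) h6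
  exact ⟨α, η, w, (smooth_iff α).2 h1, (smooth_iff η).2 h2, (isD_iff α η).2 h3, hw, h7,
    fun τ hτ t ht0 ht1 => segment_nondeg hτ hw.tames t ht0 ht1⟩

end Pool.Agent.N500.LSP
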