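import Pool.Agent.N500.LS.Avg

/-!
Local regularization at an isolated singular point beyond the inverse square (helper500).
-/

set_option autoImplicit false

open Set Filter Topology MeasureTheory
open scoped Manifold ContDiff

noncomputable section

namespace Pool.Agent.N500.LS

open Pool.Agent.Y501.SY
open Pool.Agent.Q186.SG
open Pool.Agent.Y515.SY (Al LL II JJ comp_norm LL_norm moll_cs ind_sm JJ_off moll_int JJ_eq
  moll_exists vol_zero)

variable {d : ℕ}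

theorem loc_reg2 (hSM : S_SM) (hd : 4 ≤ d) {p₀ : E d} {r a γ Λ C₀ c₀ : ℝ} (hr : 0 < r)
    (hγ0 : 0 < γ) (hγ1 : γ ≤ 1) (ha : a < 2 + γ) (hΛ : 0 ≤ Λ)
    (hC₀ : 0 ≤ C₀) (hc₀ : 0 < c₀) {k : Set (E d)} {χ : E d → ℝ} {s : E d → Al d 2}
    {Js : E d → (E d →L[ℝ] E d)} (hVk : IsOpen (Metric.ball p₀ r \ k)) (hp₀ : p₀ ∈ k)
    (hcap : ∀ Q : Set (E d), IsCompact Q → Q ⊆ Metric.ball p₀ r → Cap (k ∩ Q))
    (hχ : ContDiff ℝ ∞ χ) (hχ0 : ∀ p, 0 ≤ χ p) (hχc : HasCompactSupport χ)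
    (hχV : tsupport χ ⊆ Metric.ball p₀ r)
    (hχs : ∀ p, χ p = 0 ↔ p ∉ Metric.ball p₀ (r / 2))
    (hχ1 : ∀ p, χ p ≤ 1) (hχi : ∀ p ∈ Metric.ball p₀ (r / 4), χ p = 1)
    (hs : ContDiffOn ℝ ∞ s (Metric.ball p₀ r \ k))
    (hcl : ∀ p ∈ Metric.ball p₀ r \ k, extDeriv s p = 0)
    (hsB : ∀ p ∈ Metric.ball p₀ r \ k, ‖s p‖ ≤ C₀ * ‖p - p₀‖ ^ (-a))
    (hJ : ContinuousOn Js (Metric.ball p₀ r)) (hJJ : ∀ v, Js p₀ (Js p₀ v) = -v)
    (hHol : ∀ p ∈ Metric.ball p₀ r, ∀ q ∈ Metric.ball p₀ r, ‖Js p - Js q‖ ≤ Λ * ‖p - q‖ ^ γ)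
    (hpos : ∀ p ∈ Metric.ball p₀ r \ k, ∀ v : E d, c₀ * ‖v‖ ^ 2 ≤ s p ![v, Js p v]) :
    ∃ (s' : E d → Al d 2) (B' c' : ℝ), 0 < c' ∧
      ContDiffOn ℝ ∞ s' (Metric.ball p₀ r \ (k ∩ {p | χ p = 0})) ∧
      (∀ p ∈ Metric.ball p₀ r \ (k ∩ {p | χ p = 0}), extDeriv s' p = 0) ∧
      (∀ p ∈ Metric.ball p₀ r \ (k ∩ {p | χ p = 0}), r / 4 ≤ ‖p - p₀‖ → ‖s' p‖ ≤ B') ∧
      (∀ p, χ p = 0 → s' p = s p) ∧
      ∀ p ∈ Metric.ball p₀ r \ (k ∩ {p | χ p = 0}), ∀ v : E d,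
        c' * ‖v‖ ^ 2 ≤ s' p ![v, Js p v] := by
  obtain ⟨b, hb2, hbγ, hab⟩ : ∃ b : ℝ, 2 < b ∧ b < 2 + γ ∧ a ≤ b :=
    ⟨max a (2 + γ / 2), lt_max_of_lt_right (by linarith), max_lt ha (by linarith),
      le_max_left _ _⟩
  have hb0 : 0 < b := by linarith
  have hd4 : (4 : ℝ) ≤ d := by exact_mod_cast hd
  obtain ⟨V, hVd⟩ : ∃ V : Set (E d), V = Metric.ball p₀ r := ⟨_, rfl⟩
  have hV : IsOpen V := by rw [hVd]; exact Metric.isOpen_ball
  rw [← hVd] at hVk hcap hχV hs hcl hsB hJ hHol hpos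
  rw [← hVd]
  have hne : ∀ p ∈ V \ k, p ≠ p₀ := by
    rintro p hp rfl
    exact hp.2 hp₀
  obtain ⟨C, hC⟩ : ∃ C : ℝ, C = C₀ * r ^ (b - a) := ⟨_, rfl⟩
  have hC0 : 0 ≤ C := by rw [hC]; positivity
  have hsB2 : ∀ p ∈ V \ k, ‖s p‖ ≤ C * ‖p - p₀‖ ^ (-b) := by
    intro p hp
    have h1 : 0 < ‖p - p₀‖ := norm_pos_iff.2 (sub_ne_zero.2 (hne p hp))
    have h2 : ‖p - p₀‖ ^ (-a) ≤ r ^ (b - a) * ‖p - p₀‖ ^ (-b) := by
      have h3 : ‖p - p₀‖ ^ (-a) = ‖p - p₀‖ ^ (b - a) * ‖p - p₀‖ ^ (-b) := by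
        rw [← Real.rpow_add h1]
        congr 1
        ring
      rw [h3]
      refine mul_le_mul_of_nonneg_right ?_ (by positivity)
      have h4 := hp.1
      rw [hVd, Metric.mem_ball, dist_eq_norm] at h4
      exact Real.rpow_le_rpow h1.le h4.le (by linarith)
    rw [hC, mul_assoc]
    exact (hsB p hp).trans (mul_le_mul_of_nonneg_left h2 hC₀)
  obtain ⟨r₀, hr₀, hrV⟩ := IsCompact.exists_cthickening_subset_open hχc hV hχV
  obtain ⟨Q, hQd⟩ : ∃ Q, Q = Metric.cthickening r₀ (tsupport χ) := ⟨_, rfl⟩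
  rw [← hQd] at hrV
  have hQ : IsCompact Q := by rw [hQd]; exact IsCompact.cthickening hχc
  have hNQ : tsupport χ ⊆ Q := by rw [hQd]; exact Metric.self_subset_cthickening _
  have hcapQ : Cap (k ∩ Q) := hcap Q hQ hrV
  have hkQ : volume (k ∩ Q) = 0 := vol_zero hcapQ
  -- integrability
  obtain ⟨Φ, hΦd⟩ : ∃ Φ : E d → Al d 2, Φ = (V \ k).indicator s := ⟨_, rfl⟩
  have hsm : StronglyMeasurable Φ := by rw [hΦd]; exact ind_sm hVk hs
  have hΦb : ∀ q, ‖Φ q‖ ≤ C * ‖q - p₀‖ ^ (-b) := by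
    intro q
    rw [hΦd]
    by_cases hq : q ∈ V \ k
    · rw [indicator_of_mem hq]; exact hsB2 q hq
    · rw [indicator_of_notMem hq, norm_zero]; positivity
  have hi : Integrable Φ := by
    have h1 := (pow_int (by omega : 1 ≤ d) p₀ (by linarith : b < d) r).const_mul C
    rw [← IntegrableOn, ← integrable_indicator_iff measurableSet_ball] at h1
    refine h1.mono' hsm.aestronglyMeasurable (Eventually.of_forall fun q => ?_)
    by_cases hq : q ∈ V \ k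
    · rw [indicator_of_mem (by rw [← hVd]; exact hq.1)]
      exact hΦb q
    · rw [hΦd, indicator_of_notMem hq, norm_zero]
      exact indicator_nonneg (fun x _ => by positivity) q
  have hwc : WCap (k ∩ Q) Φ := wcap2 (by omega) hcapQ hsm hi hC0 hb0 (by linarith) hΦb
  obtain ⟨S₀, hS₀⟩ := hQ.exists_bound_of_continuousOn (hJ.mono hrV)
  obtain ⟨S, hSd⟩ : ∃ S : ℝ, S = max S₀ 0 := ⟨_, rfl⟩
  have hS0 : 0 ≤ S := by rw [hSd]; exact le_max_right _ _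
  have hS : ∀ p ∈ Q, ‖Js p‖ ≤ S := fun p hp => by
    rw [hSd]; exact (hS₀ p hp).trans (le_max_left _ _)
  obtain ⟨D, hD⟩ := (hχ.continuous_fderiv (by simp)).bounded_above_of_compact_support
    (hχc.fderiv ℝ)
  have hD0 : 0 ≤ D := (norm_nonneg _).trans (hD 0)
  obtain ⟨ρ, hρ⟩ := moll_exists (d := d) one_pos
  have hρc := moll_cs hρ
  obtain ⟨C', hC'0, hN⟩ := nb1 (by omega : 1 ≤ d) hρ hb0 (by linarith : b < d)
  -- the compensating form
  obtain ⟨r', hr'0, hr'r, hcomp⟩ := comp_form (p₀ := p₀) (Js := Js) (L := Λ * (C * C')) hr hγ0 hγ1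
    hb2 hbγ hΛ (by positivity) hJJ (fun p hp => hHol p (by rw [hVd]; exact hp) p₀
      (by rw [hVd]; exact Metric.mem_ball_self hr))
  obtain ⟨ε₀, hε₀, hcomp⟩ := hcomp (c₀ / 4) (by positivity)
  obtain ⟨B₃, hB₃⟩ : ∃ B₃ : ℝ, B₃ = C * (r' / 2) ^ (-b) := ⟨_, rfl⟩
  have hB₃0 : 0 ≤ B₃ := by rw [hB₃]; positivity
  obtain ⟨ε, hε, hε₁, hε₂, hε₃, hε₄⟩ : ∃ ε : ℝ, 0 < ε ∧ ε ≤ ε₀ ∧ ε ≤ r₀ ∧ ε ≤ r' / 2 ∧
      (Λ * ε ^ γ + 2 * (ε * D) * 1 * S) * B₃ ≤ c₀ / 4 := by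
    have t1 : Tendsto (fun ε : ℝ => (Λ * ε ^ γ + 2 * (ε * D) * 1 * S) * B₃) (𝓝 0) (𝓝 0) := by
      have h2 := (Real.continuousAt_rpow_const 0 γ (Or.inr hγ0.le)).tendsto
      rw [Real.zero_rpow hγ0.ne'] at h2
      have h3 : Tendsto (fun ε : ℝ => 2 * (ε * D) * 1 * S) (𝓝 0) (𝓝 0) := by
        have h4 : Continuous (fun ε : ℝ => 2 * (ε * D) * 1 * S) := by fun_prop
        have := h4.tendsto 0
        simpa using this
      have := ((h2.const_mul Λ).add h3).mul_const B₃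
      rwa [mul_zero, add_zero, zero_mul] at this
    have h3 := (t1.mono_left (nhdsWithin_le_nhds (s := Ioi (0 : ℝ)))).eventually
      (gt_mem_nhds (by positivity : 0 < c₀ / 4))
    have h4 : ∀ᶠ ε : ℝ in 𝓝[>] 0, ε < min ε₀ (min r₀ (r' / 2)) :=
      nhdsWithin_le_nhds (s := Ioi (0 : ℝ)) (gt_mem_nhds
        (lt_min hε₀ (lt_min hr₀ (by positivity))))
    obtain ⟨ε, ⟨h5, h6⟩, h7⟩ := ((h3.and h4).and self_mem_nhdsWithin).exists
    exact ⟨ε, h7, h6.le.trans (min_le_left _ _),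
      h6.le.trans ((min_le_right _ _).trans (min_le_left _ _)),
      h6.le.trans ((min_le_right _ _).trans (min_le_right _ _)), h5.le⟩
  obtain ⟨A, hAs, hAc, hA0, hA1, hA2⟩ := hcomp ε hε hε₁
  -- the small cut-off
  obtain ⟨χ', hχ'⟩ : ∃ χ' : E d → ℝ, χ' = fun p => ε * χ p := ⟨_, rfl⟩
  have hχ's : ContDiff ℝ ∞ χ' := by rw [hχ']; exact contDiff_const.mul hχ
  have hχ'f : ∀ p, fderiv ℝ χ' p = ε • fderiv ℝ χ p := by
    intro p
    rw [hχ']
    exact fderiv_const_mul ((hχ.differentiable (by simp)) p) ε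
  have hχ'0 : ∀ p, χ' p = 0 ↔ χ p = 0 := by
    intro p
    rw [hχ']
    simp [hε.ne']
  have hχ'p : ∀ p, 0 < χ p → 0 < χ' p := by
    intro p hp
    rw [hχ']
    exact mul_pos hε hp
  have hmove : ∀ p y : E d, ‖y‖ ≤ 1 → ‖χ' p • y‖ ≤ ε := by
    intro p y hy
    rw [norm_smul, hχ']
    change ‖ε * χ p‖ * ‖y‖ ≤ ε
    rw [Real.norm_of_nonneg (mul_nonneg hε.le (hχ0 p))]
    have h1 : ε * χ p ≤ ε := mul_le_of_le_one_right hε.le (hχ1 p)
    calc ε * χ p * ‖y‖ ≤ ε * 1 := mul_le_mul h1 hy (norm_nonneg _) hε.le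
      _ = ε := mul_one ε
  have hball : ∀ p ∈ tsupport χ, ∀ y, ‖y‖ ≤ 1 → p + χ' p • y ∈ Q := by
    intro p hp y hy
    rw [hQd]
    refine Metric.mem_cthickening_of_dist_le _ p _ _ hp ?_
    rw [dist_eq_norm, add_sub_cancel_left]
    exact (hmove p y hy).trans hε₂
  have hin : ∀ p, χ p ≠ 0 → p ∈ tsupport χ := fun p hp => subset_tsupport χ hp
  have hfd : ∀ p, χ p = 0 → fderiv ℝ χ' p = 0 := by
    intro p hp
    rw [hχ'f]
    have : fderiv ℝ χ p = 0 := by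
      apply IsLocalMin.fderiv_eq_zero
      refine Eventually.of_forall fun x => ?_
      rw [hp]
      exact hχ0 x
    rw [this, smul_zero]
  have hDD : ∀ p, ‖fderiv ℝ χ' p‖ ≤ ε * D := by
    intro p
    rw [hχ'f, norm_smul, Real.norm_of_nonneg hε.le]
    exact mul_le_mul_of_nonneg_left (hD p) hε.le
  classical
  obtain ⟨J, hJd⟩ : ∃ J : E d → Al d 2, J = JJ ρ χ' Φ := ⟨_, rfl⟩
  obtain ⟨Ω, hΩd⟩ : ∃ Ω : Set (E d), Ω = V \ (k ∩ {p | χ p = 0}) := ⟨_, rfl⟩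
  rw [← hΩd]
  have hsplit : ∀ p ∈ Ω, (χ p = 0 ∧ p ∈ V \ k) ∨ (0 < χ p ∧ p ∈ V) := by
    intro p hp
    rw [hΩd] at hp
    by_cases h : χ p = 0
    · exact Or.inl ⟨h, hp.1, fun hk => hp.2 ⟨hk, h⟩⟩
    · exact Or.inr ⟨lt_of_le_of_ne (hχ0 p) (Ne.symm h), hp.1⟩
  have hΩo : IsOpen Ω := by
    have h1 : Ω = (V \ k) ∪ (V ∩ {p | χ p ≠ 0}) := by
      ext p
      constructor
      · intro hp
        rcases hsplit p hp with h | h
        · exact Or.inl h.2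
        · exact Or.inr ⟨h.2, h.1.ne'⟩
      · rw [hΩd]
        rintro (h | h)
        · exact ⟨h.1, fun h' => h.2 h'.1⟩
        · exact ⟨h.1, fun h' => h.2 h'.2⟩
    rw [h1]
    exact hVk.union (hV.inter (isOpen_ne_fun hχ.continuous continuous_const))
  have hJs : ∀ p ∈ V \ k, χ p = 0 → J p = s p := by
    intro p hp h0
    rw [hJd, JJ_eq hρ _ ((hχ'0 p).2 h0) (hfd p h0), hΦd, indicator_of_mem hp]
  have hA00 : ∀ p, χ p = 0 → A p = 0 := by
    intro p hp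
    apply hA0
    have h1 := (hχs p).1 hp
    rw [Metric.mem_ball, dist_eq_norm, not_lt] at h1
    linarith
  obtain ⟨s', hs'⟩ : ∃ s' : E d → Al d 2, ∀ p, s' p = if χ p = 0 then s p else J p + A p :=
    ⟨_, fun _ => rfl⟩
  have hs'J : ∀ p ∈ Ω, s' p = J p + A p := by
    intro p hp
    rw [hs' p]
    split_ifs with h
    · rcases hsplit p hp with h' | h'
      · rw [hJs p h'.2 h, hA00 p h, add_zero]
      · exact absurd h h'.1.ne'
    · rfl
  have hev : ∀ p ∈ Ω, s' =ᶠ[𝓝 p] J + A := by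
    intro p hp
    filter_upwards [hΩo.mem_nhds hp] with q hq using hs'J q hq
  have hJsm : ∀ p ∈ Ω, ContDiffAt ℝ ∞ J p ∧ extDeriv J p = 0 := by
    intro p hp
    rw [hJd]
    rcases hsplit p hp with h | h
    · rw [hΦd]
      exact JJ_off hSM hρ hχ's hVk hs hcl h.2 ((hχ'0 p).2 h.1)
    · refine ⟨JJ_smooth hχ's (hχ'p p h.1) hρ.smooth hρc hsm hi, ?_⟩
      rw [hΦd] at hi hwc ⊢
      exact JJ_closed hSM zero_le_one hρ hχ's hVk hs hcl hi hrV hwc (hχ'p p h.1)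
        (hball p (hin p h.1.ne'))
  -- the bound of the form at the points of the balls
  have hfar : ∀ p, r' ≤ ‖p - p₀‖ → ∀ y, ‖y‖ ≤ 1 → ‖Φ (p + χ' p • y)‖ ≤ B₃ := by
    intro p hp y hy
    rw [hB₃]
    refine (hΦb _).trans (mul_le_mul_of_nonneg_left ?_ hC0)
    refine Real.rpow_le_rpow_of_nonpos (by positivity) ?_ (by linarith)
    have h4 := hmove p y hy
    have h5 : ‖p - p₀‖ ≤ ‖p + χ' p • y - p₀‖ + ‖χ' p • y‖ := by
      have : p - p₀ = (p + χ' p • y - p₀) - χ' p • y := by abel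
      rw [this]
      exact norm_sub_le _ _
    linarith
  refine ⟨s', B₃ * (1 + ε * D) ^ 2, c₀ / 2, by positivity, ?_, ?_, ?_, ?_, ?_⟩
  · intro p hp
    exact (((hJsm p hp).1.add hAs.contDiffAt).congr_of_eventuallyEq (hev p hp)).contDiffWithinAt
  · intro p hp
    rw [(hev p hp).extDeriv_eq, extDeriv_add ((hJsm p hp).1.differentiableAt (by simp))
      (hAs.contDiffAt.differentiableAt (by simp)), (hJsm p hp).2, hAc p, add_zero]
  · intro p hp hpr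
    rw [hs'J p hp, hA0 p hpr, add_zero, hJd]
    have hr'p : r' ≤ ‖p - p₀‖ := by linarith
    have h1 : ∫ y, ρ y * (B₃ * (1 + ε * D) ^ 2) = B₃ * (1 + ε * D) ^ 2 := by
      rw [integral_mul_const, hρ.int, one_mul]
    rw [← h1]
    refine norm_integral_le_of_norm_le ((moll_int hρ).mul_const _)
      (Eventually.of_forall fun y => ?_)
    rw [norm_smul, Real.norm_of_nonneg (hρ.nonneg y)]
    by_cases hy : 1 ≤ ‖y‖
    · rw [hρ.supp y hy, zero_mul, zero_mul]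
    · rw [not_le] at hy
      refine mul_le_mul_of_nonneg_left ?_ (hρ.nonneg y)
      refine (comp_norm _ _).trans ?_
      have h2 : ‖LL (fderiv ℝ χ' p) y‖ ≤ 1 + ε * D := by
        refine (LL_norm _ _).trans ?_
        have := mul_le_mul (hDD p) hy.le (norm_nonneg _) (by positivity)
        linarith
      exact mul_le_mul (hfar p hr'p y hy.le) (pow_le_pow_left₀ (norm_nonneg _) h2 2)
        (by positivity) hB₃0
  · intro p hp
    rw [hs' p, if_pos hp]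
  · intro p hp v
    have hv2 : 0 ≤ ‖v‖ ^ 2 := sq_nonneg _
    rcases hsplit p hp with h | h
    · rw [hs' p, if_pos h.1]
      refine le_trans ?_ (hpos p h.2 v)
      exact mul_le_mul_of_nonneg_right (by linarith) hv2
    · have hpN : p ∈ tsupport χ := hin p h.1.ne'
      have hpV : p ∈ V := h.2
      have hJh : ∀ y, ‖y‖ ≤ 1 → ‖Js p - Js (p + χ' p • y)‖ ≤ Λ * ε ^ γ := by
        intro y hy
        refine (hHol p hpV _ (hrV (hball p hpN y hy))).trans (mul_le_mul_of_nonneg_left ?_ hΛ)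
        rw [sub_add_cancel_left, norm_neg]
        exact Real.rpow_le_rpow (norm_nonneg _) (hmove p y hy) hγ0.le
      rw [hs'J p hp, hJd]
      have hadd : (JJ ρ χ' Φ p + A p) ![v, Js p v] = JJ ρ χ' Φ p ![v, Js p v] +
          A p ![v, Js p v] := rfl
      rw [hadd]
      rcases le_or_gt r' ‖p - p₀‖ with hpr | hpr
      · -- far from the point
        have h1 := JJ_lb2 (ρ := ρ) (χ := χ') hρ hVk hs (by rw [← hΦd]; exact hi) hrV hkQ hpos
          (fun h' => h.1.ne' ((hχ'0 p).1 h')) (hball p hpN) hJh (hS p (hNQ hpN)) (hDD p) v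
        rw [← hΦd] at h1
        have h2 := hA1 p hpr v
        have h3 : ∫ y, ρ y * ‖Φ (p + χ' p • y)‖ ≤ B₃ := by
          have h4 : ∫ y, ρ y * B₃ = B₃ := by rw [integral_mul_const, hρ.int, one_mul]
          calc ∫ y, ρ y * ‖Φ (p + χ' p • y)‖ ≤ ∫ y, ρ y * B₃ := by
                refine integral_mono_of_nonneg (Eventually.of_forall fun y =>
                  mul_nonneg (hρ.nonneg y) (norm_nonneg _)) ((moll_int hρ).mul_const _)
                  (Eventually.of_forall fun y => ?_)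
                by_cases hy : 1 ≤ ‖y‖
                · dsimp only
                  rw [hρ.supp y hy, zero_mul, zero_mul]
                · rw [not_le] at hy
                  exact mul_le_mul_of_nonneg_left (hfar p hpr y hy.le) (hρ.nonneg y)
            _ = B₃ := h4
        have h4 : (Λ * ε ^ γ + 2 * (ε * D) * 1 * S) * ∫ y, ρ y * ‖Φ (p + χ' p • y)‖ ≤ c₀ / 4 :=
          (mul_le_mul_of_nonneg_left h3 (by positivity)).trans hε₄
        have h5 : (c₀ - c₀ / 4) * ‖v‖ ^ 2 ≤ (c₀ - (Λ * ε ^ γ + 2 * (ε * D) * 1 * S) *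
            ∫ y, ρ y * ‖Φ (p + χ' p • y)‖) * ‖v‖ ^ 2 :=
          mul_le_mul_of_nonneg_right (by linarith) hv2
        have h6 : c₀ / 2 * ‖v‖ ^ 2 = (c₀ - c₀ / 4) * ‖v‖ ^ 2 + -(c₀ / 4) * ‖v‖ ^ 2 := by ring
        rw [h6]
        linarith
      · -- near the point
        have hpi : p ∈ Metric.ball p₀ (r / 4) := by
          rw [Metric.mem_ball, dist_eq_norm]
          linarith
        have hf0 : fderiv ℝ χ' p = 0 := by
          rw [hχ'f]
          have h2 : χ =ᶠ[𝓝 p] fun _ => 1 := by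
            filter_upwards [Metric.isOpen_ball.mem_nhds hpi] with q hq using hχi q hq
          rw [h2.fderiv_eq, fderiv_fun_const]
          exact smul_zero ε
        have hχp : χ' p = ε := by
          rw [hχ']
          change ε * χ p = ε
          rw [hχi p hpi, mul_one]
        have h1 := JJ_lb2 (ρ := ρ) (χ := χ') (D := 0) hρ hVk hs (by rw [← hΦd]; exact hi) hrV hkQ
          hpos (fun h' => h.1.ne' ((hχ'0 p).1 h')) (hball p hpN) hJh (hS p (hNQ hpN))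
          (by rw [hf0, norm_zero]) v
        rw [← hΦd, hχp] at h1
        have h2 := hA2 p hpr v
        have h3 := hN Φ C ε p₀ p hC0 hε hΦb
        have h4 : (Λ * ε ^ γ + 2 * 0 * 1 * S) * ∫ y, ρ y * ‖Φ (p + ε • y)‖ ≤
            Λ * (C * C') * ε ^ γ * (‖p - p₀‖ ^ 2 + ε ^ 2) ^ (-b / 2) := by
          have h5 : Λ * ε ^ γ + 2 * 0 * 1 * S = Λ * ε ^ γ := by ring
          rw [h5]
          calc Λ * ε ^ γ * ∫ y, ρ y * ‖Φ (p + ε • y)‖
              ≤ Λ * ε ^ γ * (C * C' * (‖p - p₀‖ ^ 2 + ε ^ 2) ^ (-b / 2)) :=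
                mul_le_mul_of_nonneg_left h3 (by positivity)
            _ = _ := by ring
        have h5 : (c₀ - Λ * (C * C') * ε ^ γ * (‖p - p₀‖ ^ 2 + ε ^ 2) ^ (-b / 2)) * ‖v‖ ^ 2 ≤
            (c₀ - (Λ * ε ^ γ + 2 * 0 * 1 * S) * ∫ y, ρ y * ‖Φ (p + ε • y)‖) * ‖v‖ ^ 2 :=
          mul_le_mul_of_nonneg_right (by linarith) hv2
        have h6 : c₀ / 2 * ‖v‖ ^ 2 ≤ c₀ * ‖v‖ ^ 2 := mul_le_mul_of_nonneg_right (by linarith) hv2
        rw [sub_mul] at h5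
        linarith

end Pool.Agent.N500.LS
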