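import Pool.Agent.N500.LS.Pt2

/-!
Removable singularities of taming forms beyond the inverse square (helper500; adapted from
`Pool.Agent.Q186.SG.Main`).
-/

set_option autoImplicit false
set_option linter.unusedSectionVars false

open Set Filter Topology MeasureTheory
open scoped Manifold ContDiff

noncomputable section

namespace Pool.Agent.N500.LS

open Pool.Agent.Y501.SY
open Pool.Agent.Q186.SG
open Pool.Agent.Y455.SY (AB BA A_surj Q Q_eq)
open Pool.Agent.Y929.SY (ev_of_chart ev_to_chart near pb_apply2 pos_near)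

section

variable {d : ℕ} {X : Type} [TopologicalSpace X] [ChartedSpace (E d) X]

/-- the growth condition: slower than the inverse square, or slower than the power `-(2 + γ)` at a
point near which `J` is Hoelder continuous with exponent `γ` -/
def G2 (J : End d X) (σ : Form d X 2) (K : Set X) (x : X) : Prop :=
  GrowAt σ K x ∨ ∃ γ : ℝ, 0 < γ ∧ γ ≤ 1 ∧ HolAt J γ x ∧ GrowB (2 + γ) σ K x

variable [IsManifold (𝓡 d) ∞ X]

theorem GrowB.congr {A : ℝ} {σ σ' : Form d X 2} {K K' : Set X} {x : X}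
    (h : ∀ᶠ y in 𝓝 x, σ' y = σ y ∧ (y ∈ K' ↔ y ∈ K)) (hb : GrowB A σ K x) :
    GrowB A σ' K' x := by
  obtain ⟨a, C, ha, hC⟩ := hb
  refine ⟨a, C, ha, ?_⟩
  filter_upwards [hC, pb_congr_near (h.mono fun y hy => hy.1),
    ev_to_chart (d := d) (h.mono fun y hy => hy.2)] with p h1 h2 h3 h4
  rw [h2]
  exact h1 fun h5 => h4 (h3.2 h5)

theorem G2.congr {J : End d X} {σ σ' : Form d X 2} {K K' : Set X} {x : X}
    (h : ∀ᶠ y in 𝓝 x, σ' y = σ y ∧ (y ∈ K' ↔ y ∈ K)) (hb : G2 J σ K x) : G2 J σ' K' x := by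
  rcases hb with hb | ⟨γ, h0, h1, h2, hb⟩
  · exact Or.inl (GrowAt.congr h hb)
  · exact Or.inr ⟨γ, h0, h1, h2, hb.congr h⟩

theorem GrowB.mono {A B : ℝ} (hAB : A ≤ B) {σ : Form d X 2} {K : Set X} {x : X}
    (h : GrowB A σ K x) : GrowB B σ K x := by
  obtain ⟨a, C, ha, hC⟩ := h
  exact ⟨a, C, lt_of_lt_of_le ha hAB, hC⟩

/-- nonnegative exponents -/
theorem GrowB.nonneg {A : ℝ} (hA : 0 < A) {σ : Form d X 2} {K : Set X} {x : X} (hx : x ∈ K)
    (h : GrowB A σ K x) :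
    ∃ a C : ℝ, 0 ≤ a ∧ a < A ∧ 0 ≤ C ∧ ∀ᶠ p in 𝓝 (chartAt (E d) x x),
      (chartAt (E d) x).symm p ∉ K → p ≠ chartAt (E d) x x ∧ ‖p - chartAt (E d) x x‖ ≤ 1 ∧
      ‖pb (chartAt (E d) x).symm σ p‖ ≤ C * ‖p - chartAt (E d) x x‖ ^ (-a) := by
  obtain ⟨a, C, ha, hC⟩ := h
  refine ⟨max a 0, |C|, le_max_right _ _, max_lt ha hA, abs_nonneg _, ?_⟩
  filter_upwards [hC, Metric.closedBall_mem_nhds (chartAt (E d) x x) one_pos] with p h1 h2 h3
  have hne : p ≠ chartAt (E d) x x := by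
    rintro rfl
    apply h3
    rw [(chartAt (E d) x).left_inv (mem_chart_source (E d) x)]
    exact hx
  rw [Metric.mem_closedBall, dist_eq_norm] at h2
  have h4 : 0 < ‖p - chartAt (E d) x x‖ := norm_pos_iff.2 (sub_ne_zero.2 hne)
  refine ⟨hne, h2, ?_⟩
  refine (h1 h3).trans ?_
  have h5 : ‖p - chartAt (E d) x x‖ ^ (-a) ≤ ‖p - chartAt (E d) x x‖ ^ (-max a 0) :=
    Real.rpow_le_rpow_of_exponent_ge h4 h2 (neg_le_neg (le_max_left _ _))
  have h6 : 0 ≤ ‖p - chartAt (E d) x x‖ ^ (-a) := by positivity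
  calc C * ‖p - chartAt (E d) x x‖ ^ (-a) ≤ |C| * ‖p - chartAt (E d) x x‖ ^ (-a) :=
        mul_le_mul_of_nonneg_right (le_abs_self _) h6
    _ ≤ _ := mul_le_mul_of_nonneg_left h5 (abs_nonneg _)

theorem GrowB.add {A : ℝ} (hA : 0 < A) {σ η : Form d X 2} {K : Set X} {x : X} (hx : x ∈ K)
    (h : GrowB A σ K x) (hη : IsSmooth η) (s : ℝ) : GrowB A (σ + s • η) K x := by
  obtain ⟨a, C, ha0, ha, hC0, hC⟩ := h.nonneg hA hx
  obtain ⟨B, hB0, hB⟩ := bdd_smooth hη x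
  refine ⟨a, C + |s| * B, ha, ?_⟩
  filter_upwards [hC, hB] with p h1 h2 h3
  obtain ⟨hne, hle, h4⟩ := h1 h3
  have h5 : 0 < ‖p - chartAt (E d) x x‖ := norm_pos_iff.2 (sub_ne_zero.2 hne)
  have h6 : 1 ≤ ‖p - chartAt (E d) x x‖ ^ (-a) :=
    Real.one_le_rpow_of_pos_of_le_one_of_nonpos h5 hle (by linarith)
  rw [pb_add, pb_smul]
  change ‖pb (chartAt (E d) x).symm σ p + s • pb (chartAt (E d) x).symm η p‖ ≤ _
  refine (norm_add_le _ _).trans ?_
  rw [norm_smul, add_mul]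
  refine add_le_add h4 ?_
  rw [Real.norm_eq_abs]
  calc |s| * ‖pb (chartAt (E d) x).symm η p‖ ≤ |s| * B :=
        mul_le_mul_of_nonneg_left h2 (abs_nonneg _)
    _ ≤ |s| * B * ‖p - chartAt (E d) x x‖ ^ (-a) := by
        have : 0 ≤ |s| * B := by positivity
        nlinarith

theorem G2.add {J : End d X} {σ η : Form d X 2} {K : Set X} {x : X} (hx : x ∈ K)
    (h : G2 J σ K x) (hη : IsSmooth η) (s : ℝ) : G2 J (σ + s • η) K x := by
  rcases h with h | ⟨γ, h0, h1, h2, h⟩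
  · exact Or.inl (h.add hx hη s)
  · exact Or.inr ⟨γ, h0, h1, h2, h.add (by linarith) hx hη s⟩

theorem G2.growB {J : End d X} {σ : Form d X 2} {K : Set X} {x : X}
    (h : G2 J σ K x) : GrowB 3 σ K x := by
  rcases h with h | ⟨γ, h0, h1, h2, h⟩
  · exact GrowB.mono (A := 2) (by norm_num) h
  · exact h.mono (by linarith)

/-- unbounded points are isolated -/
theorem growB_isol (hI : S_IMM) {A : ℝ} (hA : 0 < A) {m : ℕ} {F : X → E m}
    (hF : ContMDiff (𝓡 d) (𝓡 m) ∞ F)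
    (hFi : ∀ x, Function.Injective (mfderiv (𝓡 d) (𝓡 m) F x)) {σ : Form d X 2}
    {K : Set X} {x : X} (hx : x ∈ K) (h : GrowB A σ K x) :
    ∀ᶠ y in 𝓝 x, y ≠ x → BddAt σ K y := by
  obtain ⟨a, C, ha0, ha, hC0, hC⟩ := h.nonneg hA hx
  have h2 := (chartAt (E d) x).continuousAt (mem_chart_source (E d) x)
  filter_upwards [h2.eventually hC.eventually_nhds,
    (chartAt (E d) x).open_source.mem_nhds (mem_chart_source (E d) x)] with y hy hys hyx
  have hne : chartAt (E d) x y ≠ chartAt (E d) x x := fun h =>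
    hyx ((chartAt (E d) x).injOn hys (mem_chart_source (E d) x) h)
  have h5 : 0 < ‖chartAt (E d) x y - chartAt (E d) x x‖ := norm_pos_iff.2 (sub_ne_zero.2 hne)
  refine bdd_of_chart hI hF hFi x hys
    (B := C * (‖chartAt (E d) x y - chartAt (E d) x x‖ / 2) ^ (-a)) ?_
  have h6 : ContinuousAt (fun p : E d => ‖p - chartAt (E d) x x‖) (chartAt (E d) x y) :=
    (continuous_id.sub continuous_const).norm.continuousAt
  filter_upwards [hy, h6.eventually_const_lt (half_lt_self h5)] with p h7 h8 h9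
  refine (h7 h9).2.2.trans (mul_le_mul_of_nonneg_left ?_ hC0)
  exact Real.rpow_le_rpow_of_nonpos (by positivity) h8.le (by linarith)

/-- there are finitely many unbounded points -/
theorem growB_fin [CompactSpace X] (hI : S_IMM) {A : ℝ} (hA : 0 < A) {m : ℕ} {F : X → E m}
    (hF : ContMDiff (𝓡 d) (𝓡 m) ∞ F)
    (hFi : ∀ x, Function.Injective (mfderiv (𝓡 d) (𝓡 m) F x)) {σ : Form d X 2}
    {K : Set X} (hK : IsClosed K) (hσ : SmoothOff σ K) (h : ∀ x ∈ K, GrowB A σ K x) :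
    {x | ¬ BddAt σ K x}.Finite := by
  have h1 : ∀ x : X, {y | y ≠ x → BddAt σ K y} ∈ 𝓝 x := by
    intro x
    by_cases hx : x ∈ K
    · exact growB_isol hI hA hF hFi hx (h x hx)
    · filter_upwards [hK.isOpen_compl.mem_nhds hx] with y hy _
      exact bdd_offK hK hσ hy
  obtain ⟨t, ht⟩ := (isCompact_univ (X := X)).elim_nhds_subcover _ (fun x _ => h1 x)
  refine t.finite_toSet.subset fun y hy => ?_
  obtain ⟨x, hxt, hxy⟩ := mem_iUnion₂.1 (ht.2 (mem_univ y))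
  by_cases hyx : y = x
  · rw [hyx]; exact hxt
  · exact absurd (hxy hyx) hy

/-- removing the unbounded points one after the other -/
theorem cure2 [T2Space X] (hd : 4 ≤ d) {m : ℕ} {F : X → E m} (hF : ContMDiff (𝓡 d) (𝓡 m) ∞ F)
    (hFi : ∀ x, Function.Injective (mfderiv (𝓡 d) (𝓡 m) F x)) {J : End d X}
    (hJ : IsAlmostComplex J) {U : Set X} (hU : IsOpen U) (S : Finset X) :
    ∀ (K : Set X) (w : Form d X 2), IsClosed K → K ⊆ U →
    (∀ x₀ : X, μH[(d : ℝ) - 1] (chartAt (E d) x₀ '' (K ∩ (chartAt (E d) x₀).source)) = 0) →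
    UP F J w K → (∀ x, x ∉ S → BddAt w K x) → (∀ x ∈ S, x ∈ K ∧ G2 J w K x) →
    ∃ (K' : Set X) (w' : Form d X 2), IsClosed K' ∧ K' ⊆ K ∧ UP F J w' K' ∧
      (∀ x, BddAt w' K' x) ∧ ∀ x, x ∉ U → w' x = w x := by
  classical
  induction S using Finset.induction_on with
  | empty =>
    intro K w hK _ _ hUP hb _
    exact ⟨K, w, hK, Subset.rfl, hUP, fun x => hb x (Finset.notMem_empty x), fun x _ => rfl⟩
  | insert z T hzT ih =>
    intro K w hK hKU hH hUP hb hS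
    have hTo : IsOpen ((T : Set X)ᶜ) := T.finite_toSet.isClosed.isOpen_compl
    obtain ⟨hzK, hgz⟩ := hS z (Finset.mem_insert_self z T)
    have hstep : ∃ (K' O : Set X) (w' : Form d X 2), IsOpen O ∧ z ∈ O ∧
        O ⊆ U ∩ (T : Set X)ᶜ ∧ K' ⊆ K ∧ IsClosed K' ∧
        UP F J w' K' ∧ (∀ x ∈ O, BddAt w' K' x) ∧
        ∀ x, x ∉ O → ∀ᶠ y in 𝓝 x, w' y = w y ∧ (y ∈ K' ↔ y ∈ K) := by
      rcases hgz with hg | ⟨γ, h0, h1, h2, hg⟩
      · exact pt_step (by omega) hF hFi hJ hK hH hUP hzK hg (hU.inter hTo)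
          ⟨hKU hzK, fun h => hzT h⟩
      · exact pt_step2 hd hF hFi hJ hK hH hUP hzK h0 h1 h2 hg (hU.inter hTo)
          ⟨hKU hzK, fun h => hzT h⟩
    obtain ⟨K', O, w', hO, hzO, hOA, hK'K, hK', hUP', hbO, hout⟩ := hstep
    obtain ⟨K'', w'', e1, e2, e3, e4, e5⟩ := ih K' w' hK' (hK'K.trans hKU)
      (fun x₀ => measure_mono_null (image_mono (inter_subset_inter_left _ hK'K)) (hH x₀)) hUP'
      (by
        intro x hx
        by_cases hxO : x ∈ O
        · exact hbO x hxO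
        · refine BddAt.congr (hout x hxO) (hb x ?_)
          rw [Finset.mem_insert, not_or]
          exact ⟨fun h => hxO (h ▸ hzO), hx⟩)
      (by
        intro x hx
        have hxO : x ∉ O := fun h => (hOA h).2 hx
        obtain ⟨h1, h2⟩ := hS x (Finset.mem_insert_of_mem hx)
        exact ⟨((hout x hxO).self_of_nhds.2).2 h1, G2.congr (hout x hxO) h2⟩)
    refine ⟨K'', w'', e1, e2.trans hK'K, e3, e4, fun x hx => ?_⟩
    rw [e5 x hx]
    exact (hout x fun h => hx (hOA h).1).self_of_nhds.1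

theorem mainS2 [CompactSpace X] [T2Space X] (hd : 4 ≤ d) {J : End d X} (hJ : IsAlmostComplex J)
    {K : Set X} (hK : IsClosed K)
    (hH : ∀ x₀ : X, μH[(d : ℝ) - 1] (chartAt (E d) x₀ '' (K ∩ (chartAt (E d) x₀).source)) = 0)
    {σ : Form d X 2} (hσ : SmoothOff σ K) (hσc : IsDOff σ 0 K) (hg : ∀ x ∈ K, G2 J σ K x)
    (hpos : ∀ x, x ∉ K → ∀ v : TangentSpace (𝓡 d) x, 0 ≤ σ x ![v, J x v])
    (hthin : ∀ z, ¬ UTAt σ J K z →
      ThinAt2 0 0 J (connectedComponentIn {x | ¬ UTAt σ J K x} z) z)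
    {U : Set X} (hU : IsOpen U) (hKU : K ⊆ U) :
    ∃ (α : Form d X 1) (η w : Form d X 2), IsSmooth α ∧ IsSmooth η ∧ IsD α η ∧ IsSmooth w ∧
      IsClosedForm w ∧ (∀ x, TamesAt w J x) ∧ ∀ x, x ∉ U → w x = (σ + η) x := by
  classical
  have hI : S_IMM := Pool.Agent.Y44.SY.t_IMM
  have hd1 : 1 ≤ d := by omega
  obtain ⟨m, F, hF, -, hFi⟩ := exists_embedding_euclidean_of_compact (I := 𝓡 d) (M := X)
  have hFc : IsClosed {x | ¬ UTAt σ J K x} :=
    (isOpen_UTAt hI hF hFi σ J K).isClosed_compl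
  have hne : ∃ v : E d, v ≠ 0 := by
    have : Nontrivial (E d) := by
      haveI : Nonempty (Fin d) := ⟨⟨0, hd1⟩⟩
      infer_instance
    exact exists_ne 0
  have hD2 : D2 (0 : Form d X 2) 0 J {x | ¬ UTAt σ J K x} = {x | ¬ UTAt σ J K x} := by
    apply Subset.antisymm
    · exact fun x hx => hx.1
    · intro x hx
      obtain ⟨v, hv⟩ := hne
      exact ⟨hx, v, hv, rfl, rfl⟩
  obtain ⟨α, η, hpair, hη⟩ := level2 Pool.Agent.Y484.SY.t_GEN Pool.Agent.Y108.SY.t_PERT2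
    Pool.Agent.Y925.SY.t_PLANAR hJ (σ := 0) (θ := 0) IsSmooth.zero IsSmooth.zero hFc (by
      rw [hD2]
      exact hthin)
  obtain ⟨hα, hηs, hαη, hηc⟩ := hpair.props Pool.Agent.Y484.SY.t_GEN
  obtain ⟨s, hs, hUP⟩ := globP hF hFi hJ hσ hσc hηs hηc hpos (by
    intro x
    by_cases h : UTAt σ J K x
    · exact Or.inl h
    · exact Or.inr fun v hv => hη x h v hv rfl rfl)
  have hg1 : ∀ x ∈ K, G2 J (σ + s • η) K x := fun x hx => (hg x hx).add hx hηs s
  have hfin := growB_fin hI (A := 3) (by norm_num) hF hFi hK hUP.smooth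
    (fun x hx => (hg1 x hx).growB)
  obtain ⟨K', w', hK', hK'K, hUP', hb', hw'⟩ := cure2 hd hF hFi hJ hU hfin.toFinset K
    (σ + s • η) hK hKU hH hUP
    (by
      intro x hx
      by_contra h
      exact hx (hfin.mem_toFinset.2 h))
    (by
      intro x hx
      have h1 : ¬ BddAt (σ + s • η) K x := hfin.mem_toFinset.1 hx
      have hxK : x ∈ K := by
        by_contra h
        exact h1 (bdd_offK hK hUP.smooth h)
      exact ⟨hxK, hg1 x hxK⟩)
  have hUT' : ∀ x, UTAt w' J K' x := by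
    intro x
    rw [UTAt_iff hI hF hFi]
    obtain ⟨c, hc, h⟩ := hUP'.pos
    exact ⟨c, hc, Eventually.of_forall fun y hy v => h y hy v⟩
  obtain ⟨α', η', w, f1, f2, f3, f4, f5, f6, f7⟩ := mainT hI Pool.Agent.Y44.SY.t_QB
    Pool.Agent.Y929.SY.t_GLOB Pool.Agent.Y501.SYP.t_STEP hd1 hJ hK'
    (fun x₀ => measure_mono_null (image_mono (inter_subset_inter_left _ hK'K)) (hH x₀))
    (σ := w') hUP'.smooth hUP'.closed hb'
    (fun x hx v => by
      obtain ⟨c, hc, h⟩ := hUP'.pos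
      exact le_trans (by positivity) (h x hx v))
    (fun z hz => absurd (hUT' z) hz) hU (hK'K.trans hKU)
  refine ⟨s • α + α', s • η + η', w, (hα.smul s).add f1, (hηs.smul s).add f2, ?_, f4, f5, f6, ?_⟩
  · exact (hαη.smul s).add f3 (hα.smul s) f1
  · intro x hx
    rw [f7 x hx]
    change w' x + η' x = σ x + (s • η x + η' x)
    rw [hw' x hx]
    change σ x + s • η x + η' x = _
    rw [add_assoc]

end

end Pool.Agent.N500.LS
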