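import Pool.Agent.N500.LS.Loc2
import Pool.Agent.Q186.SG.Main

/-!
Regularization near one singular point beyond the inverse square (helper500; adapted from
`Pool.Agent.Q186.SG.Pt`).
-/

set_option autoImplicit false
set_option linter.unusedSectionVars false

open Set Filter Topology MeasureTheory
open scoped Manifold ContDiff

noncomputable section

namespace Pool.Agent.N500.LS

open Pool.Agent.Y501.SY
open Pool.Agent.Q186.SG
open Pool.Agent.Y455.SY (AB BA A_surj Q Q_eq)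
open Pool.Agent.Y929.SY (ev_of_chart ev_to_chart near pb_apply2)

section

variable {d : ℕ} {X : Type} [TopologicalSpace X] [ChartedSpace (E d) X]

/-- the form grows slower than the power `-A` of the distance to `x` -/
def GrowB (A : ℝ) (σ : Form d X 2) (K : Set X) (x : X) : Prop :=
  ∃ a C : ℝ, a < A ∧ ∀ᶠ p in 𝓝 (chartAt (E d) x x), (chartAt (E d) x).symm p ∉ K →
    ‖pb (chartAt (E d) x).symm σ p‖ ≤ C * ‖p - chartAt (E d) x x‖ ^ (-a)

/-- Hoelder continuity of `J` near `x` -/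
def HolAt (J : End d X) (γ : ℝ) (x : X) : Prop :=
  ∃ Λ : ℝ, 0 ≤ Λ ∧ ∃ N ∈ 𝓝 (chartAt (E d) x x), ∀ p ∈ N, ∀ q ∈ N,
    ‖inChart J x p - inChart J x q‖ ≤ Λ * ‖p - q‖ ^ γ

end

theorem pt_step2 {d m : ℕ} {X : Type} [TopologicalSpace X] [ChartedSpace (E d) X]
    [IsManifold (𝓡 d) ∞ X] [T2Space X] (hd : 4 ≤ d) {F : X → E m}
    (hF : ContMDiff (𝓡 d) (𝓡 m) ∞ F)
    (hFi : ∀ x, Function.Injective (mfderiv (𝓡 d) (𝓡 m) F x)) {J : End d X}
    (hJ : IsAlmostComplex J) {K : Set X} {w : Form d X 2} (hK : IsClosed K)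
    (hH : ∀ x₀ : X, μH[(d : ℝ) - 1] (chartAt (E d) x₀ '' (K ∩ (chartAt (E d) x₀).source)) = 0)
    (hUP : UP F J w K) {z : X} (hzK : z ∈ K) {γ : ℝ} (hγ0 : 0 < γ) (hγ1 : γ ≤ 1)
    (hhol : HolAt J γ z) (hg : GrowB (2 + γ) w K z) {A' : Set X} (hA : IsOpen A')
    (hz : z ∈ A') :
    ∃ (K' O : Set X) (w' : Form d X 2), IsOpen O ∧ z ∈ O ∧ O ⊆ A' ∧ K' ⊆ K ∧ IsClosed K' ∧
      UP F J w' K' ∧ (∀ x ∈ O, BddAt w' K' x) ∧
      ∀ x, x ∉ O → ∀ᶠ y in 𝓝 x, w' y = w y ∧ (y ∈ K' ↔ y ∈ K) := by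
  have hI : S_IMM := Pool.Agent.Y44.SY.t_IMM
  have hd1 : 1 ≤ d := by omega
  obtain ⟨a, C₀, ha, hC₀⟩ := hg
  obtain ⟨c₁, hc₁, hwc⟩ := hUP.pos
  obtain ⟨Λ, hΛ, N₀, hN₀, hΛN⟩ := hhol
  -- the ball
  obtain ⟨r, hr, hball⟩ : ∃ r : ℝ, 0 < r ∧ ∀ p ∈ Metric.closedBall (chartAt (E d) z z) r,
      p ∈ (chartAt (E d) z).target ∧ (chartAt (E d) z).symm p ∈ A' ∧
        ((chartAt (E d) z).symm p ∉ K → ‖pb (chartAt (E d) z).symm w p‖ ≤
          C₀ * ‖p - chartAt (E d) z z‖ ^ (-a)) ∧ p ∈ N₀ := by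
    have h4 := ev_to_chart (d := d) (x₀ := z) (P := fun x => x ∈ A') (hA.mem_nhds hz)
    have h5 : ∀ᶠ p in 𝓝 (chartAt (E d) z z), p ∈ (chartAt (E d) z).target :=
      (chartAt (E d) z).open_target.mem_nhds (mem_chart_target (E d) z)
    obtain ⟨r, hr, h6⟩ := Metric.nhds_basis_closedBall.mem_iff.1
      (h5.and (h4.and (hC₀.and hN₀)))
    exact ⟨r, hr, fun p hp => h6 hp⟩
  obtain ⟨p₀, hp₀⟩ : ∃ p₀, p₀ = chartAt (E d) z z := ⟨_, rfl⟩
  rw [← hp₀] at hball
  obtain ⟨e, he⟩ : ∃ e, e = chartAt (E d) z := ⟨_, rfl⟩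
  have hzs : z ∈ e.source := by rw [he]; exact mem_chart_source (E d) z
  have hez : e z = p₀ := by rw [he, hp₀]
  have hesz : e.symm p₀ = z := by rw [← hez]; exact e.left_inv hzs
  have hVt : Metric.closedBall p₀ r ⊆ e.target := fun p hp => by
    rw [he]; exact (hball p hp).1
  have hV : Metric.ball p₀ r ⊆ e.target := Metric.ball_subset_closedBall.trans hVt
  have hN : IsCompact (Metric.closedBall p₀ r) := isCompact_closedBall p₀ r
  obtain ⟨ci, Ci, hci, hCi, hnm⟩ := hI d m X F hF hFi z (Metric.closedBall p₀ r) hN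
    (by rw [← he]; exact hVt)
  have hW : IsOpen (e.source ∩ e ⁻¹' Metric.ball p₀ (r / 2)) :=
    e.isOpen_inter_preimage Metric.isOpen_ball
  have hO : IsOpen (e.source ∩ e ⁻¹' Metric.ball p₀ r) :=
    e.isOpen_inter_preimage Metric.isOpen_ball
  obtain ⟨W, hWd⟩ : ∃ W, W = e.source ∩ e ⁻¹' Metric.ball p₀ (r / 2) := ⟨_, rfl⟩
  obtain ⟨O, hOd⟩ : ∃ O, O = e.source ∩ e ⁻¹' Metric.ball p₀ r := ⟨_, rfl⟩
  rw [← hWd] at hW
  rw [← hOd] at hO
  have heO : e '' O = Metric.ball p₀ r := by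
    apply Subset.antisymm
    · rintro _ ⟨x, hx, rfl⟩
      rw [hOd] at hx
      exact hx.2
    · intro p hp
      refine ⟨e.symm p, ?_, e.right_inv (hV hp)⟩
      rw [hOd]
      refine ⟨e.map_target (hV hp), ?_⟩
      rw [mem_preimage, e.right_inv (hV hp)]
      exact hp
  have hOs : O ⊆ e.source := by rw [hOd]; exact inter_subset_left
  have hWO : W ⊆ O := by
    rw [hWd, hOd]
    exact inter_subset_inter_right _ (preimage_mono (Metric.ball_subset_ball (by linarith)))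
  have hOA : O ⊆ A' := by
    intro x hx
    have h1 : e x ∈ Metric.ball p₀ r := by rw [hOd] at hx; exact hx.2
    have h2 := (hball (e x) (Metric.ball_subset_closedBall h1)).2.1
    rw [← he, e.left_inv (hOs hx)] at h2
    exact h2
  have hWs : ∀ p ∈ Metric.ball p₀ r, e.symm p ∈ W ↔ p ∈ Metric.ball p₀ (r / 2) := by
    intro p hp
    rw [hWd]
    constructor
    · rintro ⟨_, h⟩
      rwa [mem_preimage, e.right_inv (hV hp)] at h
    · intro h
      refine ⟨e.map_target (hV hp), ?_⟩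
      rwa [mem_preimage, e.right_inv (hV hp)]
  have hzO : z ∈ O := by
    rw [hOd]
    refine ⟨hzs, ?_⟩
    rw [mem_preimage, hez]
    exact Metric.mem_ball_self hr
  -- the cut-off function
  obtain ⟨χ, hχ, hχin⟩ : ∃ χ : ContDiffBump p₀, χ.rOut = r / 2 ∧ χ.rIn = r / 4 :=
    ⟨⟨r / 4, r / 2, by positivity, by linarith⟩, rfl, rfl⟩
  have hχt : tsupport χ = Metric.closedBall p₀ (r / 2) := by rw [χ.tsupport_eq, hχ]
  have hχ0 : ∀ p, χ p = 0 ↔ p ∉ Metric.ball p₀ (r / 2) := by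
    intro p
    rw [← hχ, ← χ.support_eq, Function.notMem_support]
  have htV : Metric.closedBall p₀ (r / 2) ⊆ Metric.ball p₀ r :=
    Metric.closedBall_subset_ball (by linarith)
  obtain ⟨k, hk⟩ : ∃ k, k = Metric.ball p₀ r ∩ e.symm ⁻¹' K := ⟨_, rfl⟩
  have hVk : Metric.ball p₀ r \ k = Metric.ball p₀ r ∩ e.symm ⁻¹' Kᶜ := by
    rw [hk]
    ext p
    simp only [Set.mem_sdiff, mem_inter_iff, mem_preimage, mem_compl_iff]
    tauto
  have hVko : IsOpen (Metric.ball p₀ r \ k) := by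
    rw [hVk]
    have h1 : IsOpen (e.target ∩ e.symm ⁻¹' Kᶜ) := e.isOpen_inter_preimage_symm hK.isOpen_compl
    have h2 : Metric.ball p₀ r ∩ e.symm ⁻¹' Kᶜ = Metric.ball p₀ r ∩ (e.target ∩ e.symm ⁻¹' Kᶜ) := by
      rw [← inter_assoc, inter_eq_left.2 hV]
    rw [h2]
    exact Metric.isOpen_ball.inter h1
  have hsK : ∀ p ∈ Metric.ball p₀ r \ k, e.symm p ∉ K := by
    intro p hp
    rw [hVk] at hp
    exact hp.2
  have hp₀k : p₀ ∈ k := by
    rw [hk]
    refine ⟨Metric.mem_ball_self hr, ?_⟩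
    rw [mem_preimage, hesz]
    exact hzK
  have hcapk : ∀ Q : Set (E d), IsCompact Q → Q ⊆ Metric.ball p₀ r → Cap (k ∩ Q) := by
    intro Q hQc hQV
    have h1 : k ∩ Q = Q ∩ e.symm ⁻¹' K := by
      rw [hk]
      ext p
      simp only [mem_inter_iff, mem_preimage]
      exact ⟨fun h => ⟨h.2, h.1.2⟩, fun h => ⟨⟨hQV h.1, h.2⟩, h.1⟩⟩
    have h2 : IsClosed (Q ∩ e.symm ⁻¹' K) :=
      (e.continuousOn_symm.mono (hQV.trans hV)).preimage_isClosed_of_isClosed hQc.isClosed hK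
    rw [h1]
    refine t_CAP d hd1 _ (hQc.of_isClosed_subset h2 inter_subset_left) ?_
    refine measure_mono_null ?_ (hH z)
    rintro p ⟨hp, hpK⟩
    rw [← he]
    exact ⟨e.symm p, ⟨hpK, e.map_target (hV (hQV hp))⟩, e.right_inv (hV (hQV hp))⟩
  have hsymm : ContMDiffOn (𝓡 d) (𝓡 d) ∞ (chartAt (E d) z).symm (Metric.ball p₀ r) :=
    contMDiffOn_chart_symm.mono (by rw [← he]; exact hV)
  have hs1 : ContDiffOn ℝ ∞ (pb (chartAt (E d) z).symm w) (Metric.ball p₀ r \ k) :=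
    hUP.smooth _ _ hVko (hsymm.mono sdiff_subset) (by rw [← he]; exact hsK)
  have hs2 : ∀ p ∈ Metric.ball p₀ r \ k, extDeriv (pb (chartAt (E d) z).symm w) p = 0 := by
    intro p hp
    have h1 := hUP.closed _ _ hVko (hsymm.mono sdiff_subset) (by rw [← he]; exact hsK) p hp
    rw [h1, pb_zero]
    rfl
  have hs3 : ∀ p ∈ Metric.ball p₀ r \ k,
      ‖pb (chartAt (E d) z).symm w p‖ ≤ |C₀| * ‖p - p₀‖ ^ (-a) := by
    intro p hp
    have h1 := (hball p (Metric.ball_subset_closedBall hp.1)).2.2.1 (by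
      rw [← he]
      exact hsK p hp)
    exact h1.trans (mul_le_mul_of_nonneg_right (le_abs_self _) (by positivity))
  have hs4 : ∀ p ∈ Metric.ball p₀ r \ k, ∀ v : E d, c₁ * ci ^ 2 * ‖v‖ ^ 2 ≤
      pb (chartAt (E d) z).symm w p ![v, inChart J z p v] := by
    intro p hp v
    have hpc : p ∈ Metric.closedBall p₀ r := Metric.ball_subset_closedBall hp.1
    have h0 := Q_eq w J z (p := p) (by rw [← he]; exact hV hp.1) v
    unfold Q at h0
    rw [h0]
    have h1 := hwc ((chartAt (E d) z).symm p) (by rw [← he]; exact hsK p hp)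
      (Pool.Agent.Y455.SY.A z p v)
    refine le_trans ?_ h1
    have h2 := (hnm p hpc v).1
    have h3 : (ci * ‖v‖) ^ 2 ≤ nm F ((chartAt (E d) z).symm p)
        (Pool.Agent.Y455.SY.A z p v) ^ 2 := by
      have : 0 ≤ ci * ‖v‖ := by positivity
      exact pow_le_pow_left₀ this h2 2
    calc _ = c₁ * (ci * ‖v‖) ^ 2 := by ring
      _ ≤ _ := by gcongr
  have hJc : ContinuousOn (inChart J z) (Metric.ball p₀ r) := (hJ.cont z).mono (by
    rw [← he]; exact hV)
  obtain ⟨s', B', c', hc', g1, g2, g3, g4, g5⟩ := loc_reg2 Pool.Agent.Y394.SY.t_SM hd (p₀ := p₀)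
    (r := r) (a := a) (C₀ := |C₀|) (c₀ := c₁ * ci ^ 2) hr hγ0 hγ1 ha hΛ (abs_nonneg _)
    (by positivity)
    (k := k) (χ := χ) (s := pb (chartAt (E d) z).symm w) (Js := inChart J z) hVko hp₀k hcapk
    χ.contDiff (fun p => χ.nonneg) χ.hasCompactSupport (by rw [hχt]; exact htV) hχ0
    (fun p => χ.le_one) (fun p hp => χ.one_of_mem_closedBall (by
      rw [hχin]; exact Metric.ball_subset_closedBall hp)) hs1 hs2 hs3
    hJc (fun v => inChart_sq hJ z (by rw [← he]; exact hV (Metric.mem_ball_self hr)) v)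
    (fun p hp q hq => hΛN p (hball p (Metric.ball_subset_closedBall hp)).2.2.2 q
      (hball q (Metric.ball_subset_closedBall hq)).2.2.2) hs4
  -- the new singular set
  have hKW : IsClosed (K \ W) := by
    rw [Set.sdiff_eq]
    exact hK.inter hW.isClosed_compl
  have hset : (chartAt (E d) z '' O) \ (chartAt (E d) z '' ((K \ W) ∩ O)) =
      Metric.ball p₀ r \ (k ∩ {p | χ p = 0}) := by
    rw [← he, heO]
    ext p
    constructor
    · rintro ⟨hp, hn⟩
      refine ⟨hp, ?_⟩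
      rintro ⟨h1, h2⟩
      apply hn
      rw [hk] at h1
      refine ⟨e.symm p, ⟨⟨h1.2, ?_⟩, ?_⟩, e.right_inv (hV hp)⟩
      · rw [hWs p hp]
        exact (hχ0 p).1 h2
      · rw [hOd]
        refine ⟨e.map_target (hV hp), ?_⟩
        rwa [mem_preimage, e.right_inv (hV hp)]
    · rintro ⟨hp, hn⟩
      refine ⟨hp, ?_⟩
      rintro ⟨x, ⟨⟨hxK, hxW⟩, hxO⟩, rfl⟩
      apply hn
      have hxs := hOs hxO
      refine ⟨?_, ?_⟩
      · rw [hk]
        refine ⟨hp, ?_⟩
        change e.symm (e x) ∈ K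
        rwa [e.left_inv hxs]
      · change χ (e x) = 0
        rw [hχ0, ← hWs _ hp, e.left_inv hxs]
        exact hxW
  obtain ⟨f1, f2, f3, f4⟩ := Pool.Agent.Y949.SY.t_PATCH2 d X z O K (K \ W)
    (Metric.closedBall p₀ (r / 2)) s' w hO
    (by rw [← he]; exact hOs) hKW sdiff_subset (isCompact_closedBall _ _)
    (by rw [← he, heO]; exact htV)
    (by
      intro x hx hx2
      have hxW : x ∈ W := by
        by_contra h
        exact hx2 ⟨hx, h⟩
      refine ⟨hWO hxW, ?_⟩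
      rw [← he]
      rw [hWd] at hxW
      exact Metric.ball_subset_closedBall hxW.2)
    (by rw [hset]; exact g1) (by rw [hset]; exact g2)
    (by
      intro p hp
      apply g4
      rw [hχ0]
      exact fun h => hp.2 (Metric.ball_subset_closedBall h))
    hUP.smooth hUP.closed
  have hout : ∀ x, x ∉ O → patch z O s' w x = w x := fun x hx => f3 x (Or.inl hx)
  have hin : ∀ x ∈ O, x ∉ K \ W → ∃ p ∈ Metric.ball p₀ r \ (k ∩ {p | χ p = 0}), e.symm p = x := by
    intro x hx hx2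
    refine ⟨e x, ?_, e.left_inv (hOs hx)⟩
    rw [← hset, ← he]
    refine ⟨⟨x, hx, rfl⟩, ?_⟩
    rintro ⟨y, hy, hyx⟩
    have : y = x := e.injOn (hOs hy.2) (hOs hx) hyx
    rw [this] at hy
    exact hx2 hy.1
  refine ⟨K \ W, O, patch z O s' w, hO, hzO, hOA, sdiff_subset, hKW, ⟨f1, f2, ?_⟩, ?_, ?_⟩
  · refine ⟨min c₁ (c' * (Ci⁻¹) ^ 2), lt_min hc₁ (by positivity), ?_⟩
    intro x hx v
    by_cases hxO : x ∈ O
    · obtain ⟨p, hp, rfl⟩ := hin x hxO hx
      have hpc : p ∈ Metric.closedBall p₀ r := Metric.ball_subset_closedBall hp.1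
      have hpt : p ∈ (chartAt (E d) z).target := by rw [← he]; exact hV hp.1
      subst he
      have hv := AB z hpt v
      obtain ⟨v', hv'⟩ : ∃ v', v' = Pool.Agent.Y455.SY.B z p v := ⟨_, rfl⟩
      rw [← hv'] at hv
      have h0 := Q_eq (patch z O s' w) J z hpt v'
      unfold Q at h0
      rw [hv, f4 p (by rw [heO]; exact hp.1)] at h0
      rw [← h0]
      refine le_trans ?_ (g5 p hp v')
      have h4 := (hnm p hpc v').2
      change nm F ((chartAt (E d) z).symm p) (Pool.Agent.Y455.SY.A z p v') ≤ Ci * ‖v'‖ at h4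
      rw [hv] at h4
      have n1 : 0 ≤ nm F ((chartAt (E d) z).symm p) v := norm_nonneg _
      have h6 : Ci⁻¹ * nm F ((chartAt (E d) z).symm p) v ≤ ‖v'‖ := by
        rw [inv_mul_eq_div, div_le_iff₀ hCi, mul_comm]
        exact h4
      have h7 : (Ci⁻¹ * nm F ((chartAt (E d) z).symm p) v) ^ 2 ≤ ‖v'‖ ^ 2 :=
        pow_le_pow_left₀ (by positivity) h6 2
      calc min c₁ (c' * (Ci⁻¹) ^ 2) * nm F ((chartAt (E d) z).symm p) v ^ 2
          ≤ (c' * (Ci⁻¹) ^ 2) * nm F ((chartAt (E d) z).symm p) v ^ 2 := by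
            have := min_le_right c₁ (c' * (Ci⁻¹) ^ 2)
            gcongr
        _ = c' * (Ci⁻¹ * nm F ((chartAt (E d) z).symm p) v) ^ 2 := by ring
        _ ≤ c' * ‖v'‖ ^ 2 := by gcongr
    · rw [hout x hxO]
      have hxK : x ∉ K := fun h => hx ⟨h, fun h' => hxO (hWO h')⟩
      refine le_trans ?_ (hwc x hxK v)
      have := min_le_left c₁ (c' * (Ci⁻¹) ^ 2)
      gcongr
  · -- boundedness
    intro x hxO
    by_cases hxW : x ∈ W
    · exact bdd_offK hKW f1 fun h => h.2 hxW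
    · rw [BddAt_iff hI hF hFi]
      refine ⟨|B'| * ci⁻¹ * ci⁻¹, by positivity, ?_⟩
      have hxb : e x ∉ Metric.ball p₀ (r / 2) := by
        intro h
        apply hxW
        rw [hWd]
        exact ⟨hOs hxO, h⟩
      have hxr : r / 4 < ‖e x - p₀‖ := by
        rw [Metric.mem_ball, dist_eq_norm, not_lt] at hxb
        linarith
      have hcont : ContinuousAt (fun y => ‖e y - p₀‖) x :=
        ((e.continuousAt (hOs hxO)).sub continuousAt_const).norm
      filter_upwards [hO.mem_nhds hxO, hcont.eventually_const_lt hxr] with y hyO hyr hyK v u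
      obtain ⟨p, hp, rfl⟩ := hin y hyO hyK
      have hpc : p ∈ Metric.closedBall p₀ r := Metric.ball_subset_closedBall hp.1
      have hpr : r / 4 ≤ ‖p - p₀‖ := by
        rw [e.right_inv (hV hp.1)] at hyr
        exact hyr.le
      have hpt : p ∈ (chartAt (E d) z).target := by rw [← he]; exact hV hp.1
      subst he
      have hv := AB z hpt v
      have hu := AB z hpt u
      obtain ⟨v', hv'⟩ : ∃ v', v' = Pool.Agent.Y455.SY.B z p v := ⟨_, rfl⟩
      obtain ⟨u', hu'⟩ : ∃ u', u' = Pool.Agent.Y455.SY.B z p u := ⟨_, rfl⟩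
      rw [← hv'] at hv
      rw [← hu'] at hu
      have h1 : patch z O s' w ((chartAt (E d) z).symm p) ![v, u] = s' p ![v', u'] := by
        have h2 := f4 p (by rw [heO]; exact hp.1)
        rw [← h2, pb_app2]
        change _ = patch z O s' w ((chartAt (E d) z).symm p) ![Pool.Agent.Y455.SY.A z p v',
          Pool.Agent.Y455.SY.A z p u']
        rw [hv, hu]
      rw [h1]
      have h3 := le_norm2 (s' p) v' u'
      have h4 := (hnm p hpc v').1
      have h5 := (hnm p hpc u').1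
      change ci * ‖v'‖ ≤ nm F ((chartAt (E d) z).symm p) (Pool.Agent.Y455.SY.A z p v') at h4
      change ci * ‖u'‖ ≤ nm F ((chartAt (E d) z).symm p) (Pool.Agent.Y455.SY.A z p u') at h5
      rw [hv] at h4
      rw [hu] at h5
      have h6 : ‖v'‖ ≤ ci⁻¹ * nm F ((chartAt (E d) z).symm p) v := by
        rw [inv_mul_eq_div, le_div_iff₀ hci, mul_comm]
        exact h4
      have h7 : ‖u'‖ ≤ ci⁻¹ * nm F ((chartAt (E d) z).symm p) u := by
        rw [inv_mul_eq_div, le_div_iff₀ hci, mul_comm]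
        exact h5
      have h8 : ‖s' p‖ ≤ |B'| := (g3 p hp hpr).trans (le_abs_self _)
      have n1 : 0 ≤ nm F ((chartAt (E d) z).symm p) v := norm_nonneg _
      have n2 : 0 ≤ nm F ((chartAt (E d) z).symm p) u := norm_nonneg _
      calc |s' p ![v', u']| ≤ ‖s' p‖ * ‖v'‖ * ‖u'‖ := h3
        _ ≤ |B'| * (ci⁻¹ * nm F ((chartAt (E d) z).symm p) v) *
            (ci⁻¹ * nm F ((chartAt (E d) z).symm p) u) := by gcongr
        _ = (|B'| * ci⁻¹ * ci⁻¹) * nm F ((chartAt (E d) z).symm p) v *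
            nm F ((chartAt (E d) z).symm p) u := by ring
  · -- nothing changes elsewhere
    intro x hxO
    obtain ⟨M, hM⟩ : ∃ M, M = e.symm '' Metric.closedBall p₀ (r / 2) := ⟨_, rfl⟩
    have hMc : IsCompact M := by
      rw [hM]
      exact (isCompact_closedBall _ _).image_of_continuousOn
        (e.continuousOn_symm.mono (htV.trans hV))
    have hMO : M ⊆ O := by
      rw [hM]
      rintro _ ⟨p, hp, rfl⟩
      rw [hOd]
      refine ⟨e.map_target (hV (htV hp)), ?_⟩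
      rw [mem_preimage, e.right_inv (hV (htV hp))]
      exact htV hp
    have hxM : x ∉ M := fun h => hxO (hMO h)
    filter_upwards [hMc.isClosed.isOpen_compl.mem_nhds hxM] with y hy
    have hyN : y ∉ O ∨ chartAt (E d) z y ∉ Metric.closedBall p₀ (r / 2) := by
      by_cases hyO : y ∈ O
      · right
        intro h
        apply hy
        rw [hM]
        refine ⟨e y, by rw [he]; exact h, e.left_inv (hOs hyO)⟩
      · exact Or.inl hyO
    refine ⟨f3 y hyN, ⟨fun h => h.1, fun h => ⟨h, fun hW' => ?_⟩⟩⟩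
    rcases hyN with h' | h'
    · exact h' (hWO hW')
    · apply h'
      rw [← he]
      rw [hWd] at hW'
      exact Metric.ball_subset_closedBall hW'.2

end Pool.Agent.N500.LS
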